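import Mathlib

set_option autoImplicit false

/-!
Sums of reciprocals of primes: a Mertens type lower bound from the Euler product.
-/

namespace Pool.Agent.UnitFrac

open Finset

/-- the sum of the reciprocals of the primes below `z` -/
noncomputable def PS (z : ℕ) : ℝ := ∑ p ∈ z.primesBelow, (1:ℝ)/p

/-- `n ↦ 1/n` as a monoid homomorphism -/
noncomputable def recip : ℕ →* ℝ where
  toFun n := (n:ℝ)⁻¹
  map_one' := by simp
  map_mul' a b := by push_cast; rw [mul_inv]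

lemma recip_apply (n : ℕ) : recip n = (n:ℝ)⁻¹ := rfl

lemma sum_inv_le_prod (z : ℕ) :
    ∑ n ∈ Icc 1 (z-1), ((n:ℝ))⁻¹ ≤ ∏ p ∈ z.primesBelow, (1 - ((p:ℝ))⁻¹)⁻¹ := by
  have hp : ∀ {p : ℕ}, p.Prime → ‖recip p‖ < 1 := by
    intro p hp
    rw [recip_apply, norm_inv, Real.norm_natCast]
    have : (1:ℝ) < p := by exact_mod_cast hp.one_lt
    exact inv_lt_one_of_one_lt₀ this
  obtain ⟨h1, h2⟩ := EulerProduct.summable_and_hasSum_smoothNumbers_prod_primesBelow_geometric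
    (f := recip) hp z
  have hmem : ∀ n ∈ Icc 1 (z-1), n ∈ z.smoothNumbers := by
    intro n hn
    rw [Finset.mem_Icc] at hn
    exact Nat.mem_smoothNumbers_of_lt (by omega) (by omega)
  classical
  have h3 : ∑ m ∈ (Icc 1 (z-1)).subtype (fun n => n ∈ z.smoothNumbers), recip (m : ℕ)
      ≤ ∏ p ∈ z.primesBelow, (1 - recip p)⁻¹ := by
    apply sum_le_hasSum _ _ h2
    intro i _
    rw [recip_apply]; positivity
  rw [Finset.sum_subtype_of_mem (fun n : ℕ => recip n) hmem] at h3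
  simpa [recip_apply] using h3

lemma sum_telescope (z : ℕ) : ∑ p ∈ z.primesBelow, (1:ℝ)/((p:ℝ)*((p:ℝ)-1)) ≤ 1 := by
  have h1 : ∑ p ∈ z.primesBelow, (1:ℝ)/((p:ℝ)*((p:ℝ)-1))
      ≤ ∑ p ∈ Ico 2 (z+2), (1:ℝ)/((p:ℝ)*((p:ℝ)-1)) := by
    apply Finset.sum_le_sum_of_subset_of_nonneg
    · intro p hp
      have h := Nat.mem_primesBelow.mp hp
      rw [Finset.mem_Ico]
      exact ⟨h.2.two_le, by omega⟩
    · intro p hp _
      rw [Finset.mem_Ico] at hp
      have : (2:ℝ) ≤ p := by exact_mod_cast hp.1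
      have h0 : 0 ≤ (p:ℝ) - 1 := by linarith
      positivity
  have h2 : ∀ n : ℕ, ∑ p ∈ Ico 2 (n+2), (1:ℝ)/((p:ℝ)*((p:ℝ)-1)) = 1 - 1/((n:ℝ)+1) := by
    intro n
    induction n with
    | zero => simp
    | succ n ih =>
      rw [show n + 1 + 2 = (n+2)+1 by ring, Finset.sum_Ico_succ_top (by omega), ih]
      push_cast
      have e1 : (n:ℝ) + 2 - 1 = n + 1 := by ring
      have e2 : (n:ℝ) + 1 + 1 = n + 2 := by ring
      rw [e1, e2]
      have : (n:ℝ) + 1 ≠ 0 := by positivity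
      have : (n:ℝ) + 2 ≠ 0 := by positivity
      field_simp
      ring
  rw [h2] at h1
  have : (0:ℝ) ≤ 1/((z:ℝ)+1) := by positivity
  linarith

lemma sum_sq (z : ℕ) : ∑ p ∈ z.primesBelow, (1:ℝ)/(p:ℝ)^2 ≤ 1 := by
  refine le_trans (Finset.sum_le_sum ?_) (sum_telescope z)
  intro p hp
  have h := Nat.mem_primesBelow.mp hp
  have : (2:ℝ) ≤ p := by exact_mod_cast h.2.two_le
  apply one_div_le_one_div_of_le
  · nlinarith
  · nlinarith

lemma log_le_exp_PS (z : ℕ) (hz : 1 ≤ z) : Real.log z ≤ Real.exp (PS z + 1) := by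
  have h1 := log_add_one_le_harmonic (z-1)
  have h2 : ((z-1 : ℕ) : ℝ) + 1 = z := by
    have : z - 1 + 1 = z := by omega
    exact_mod_cast this
  have h1' : Real.log z ≤ ∑ n ∈ Icc 1 (z-1), ((n:ℝ))⁻¹ := by
    have e : ((harmonic (z-1) : ℚ) : ℝ) = ∑ n ∈ Icc 1 (z-1), ((n:ℝ))⁻¹ := by
      rw [harmonic_eq_sum_Icc]; push_cast; rfl
    rw [← e, ← h2]
    exact_mod_cast h1
  refine le_trans h1' (le_trans (sum_inv_le_prod z) ?_)
  have h3 : ∏ p ∈ z.primesBelow, (1 - ((p:ℝ))⁻¹)⁻¹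
      ≤ ∏ p ∈ z.primesBelow, Real.exp ((1:ℝ)/p + 1/((p:ℝ)*((p:ℝ)-1))) := by
    apply Finset.prod_le_prod
    · intro p hp
      have h := Nat.mem_primesBelow.mp hp
      have : (1:ℝ) < p := by exact_mod_cast h.2.one_lt
      have : (p:ℝ)⁻¹ < 1 := inv_lt_one_of_one_lt₀ this
      apply inv_nonneg.mpr; linarith
    · intro p hp
      have h := Nat.mem_primesBelow.mp hp
      have hp1 : (1:ℝ) < p := by exact_mod_cast h.2.one_lt
      have e : (1 - ((p:ℝ))⁻¹)⁻¹ = ((1:ℝ)/p + 1/((p:ℝ)*((p:ℝ)-1))) + 1 := by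
        have : (p:ℝ) - 1 ≠ 0 := by linarith
        have : (p:ℝ) ≠ 0 := by linarith
        have h5 : 1 - ((p:ℝ))⁻¹ = ((p:ℝ)-1)/p := by field_simp
        rw [h5]
        field_simp
        ring
      rw [e]
      exact Real.add_one_le_exp _
  refine le_trans h3 ?_
  rw [← Real.exp_sum, Finset.sum_add_distrib]
  apply Real.exp_le_exp.mpr
  have := sum_telescope z
  unfold PS
  linarith

lemma PS_succ_le (z : ℕ) : PS (z+1) ≤ PS z + 1/2 := by
  unfold PS
  by_cases hz : z.Prime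
  · rw [Nat.primesBelow_succ, if_pos hz, Finset.sum_insert (Nat.notMem_primesBelow z)]
    have : (2:ℝ) ≤ z := by exact_mod_cast hz.two_le
    have : (1:ℝ)/z ≤ 1/2 := one_div_le_one_div_of_le (by norm_num) this
    linarith
  · rw [Nat.primesBelow_succ, if_neg hz]
    linarith

lemma PS_zero : PS 0 = 0 := by simp [PS, Nat.primesBelow]

lemma exists_PS_ge (i : ℕ) : ∃ z : ℕ, (i:ℝ) ≤ PS z := by
  refine ⟨⌈Real.exp (Real.exp (i+1))⌉₊, ?_⟩
  set z := ⌈Real.exp (Real.exp (i+1))⌉₊ with hz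
  have hz1 : Real.exp (Real.exp (i+1)) ≤ z := Nat.le_ceil _
  have hzpos : 1 ≤ z := by
    have : 0 < Real.exp (Real.exp ((i:ℝ)+1)) := Real.exp_pos _
    exact Nat.one_le_ceil_iff.mpr this
  have h1 := log_le_exp_PS z hzpos
  have h2 : Real.exp (i+1) ≤ Real.log z := by
    have := Real.log_le_log (Real.exp_pos _) hz1
    rwa [Real.log_exp] at this
  have h3 := Real.exp_le_exp.mp (le_trans h2 h1)
  linarith

lemma exists_level (i : ℕ) (hi : 1 ≤ i) : ∃ z : ℕ, 1 ≤ z ∧ (i:ℝ) ≤ PS z ∧ PS z ≤ i + 1/2 ∧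
    Real.log z ≤ Real.exp (i + 3/2) := by
  classical
  have hex := exists_PS_ge i
  set z := Nat.find hex with hz
  have hz1 : (i:ℝ) ≤ PS z := Nat.find_spec hex
  have hz0 : 1 ≤ z := by
    by_contra h
    have : z = 0 := by omega
    rw [this, PS_zero] at hz1
    have : (1:ℝ) ≤ i := by exact_mod_cast hi
    linarith
  have hz2 : PS z ≤ i + 1/2 := by
    have h1 : ¬ ((i:ℝ) ≤ PS (z-1)) := Nat.find_min hex (by omega)
    have h2 := PS_succ_le (z-1)
    rw [show z - 1 + 1 = z by omega] at h2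
    push Not at h1
    linarith
  refine ⟨z, hz0, hz1, hz2, ?_⟩
  refine le_trans (log_le_exp_PS z hz0) ?_
  apply Real.exp_le_exp.mpr
  linarith

end Pool.Agent.UnitFrac
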