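import Mathlib
import Pool.Agent.UnitFrac.Primes

set_option autoImplicit false

/-!
Numbers with too many small prime factors are rare.
-/

namespace Pool.Agent.UnitFrac

open Finset

/-- number of prime factors of `n` in `S`, with multiplicity -/
def Om (S : Finset ℕ) (n : ℕ) : ℕ := ∑ p ∈ S, n.factorization p

lemma Om_mul (S : Finset ℕ) (a b : ℕ) (ha : a ≠ 0) (hb : b ≠ 0) :
    Om S (a*b) = Om S a + Om S b := by
  unfold Om
  rw [Nat.factorization_mul ha hb, ← Finset.sum_add_distrib]
  rfl

lemma sum_multiples (p N : ℕ) (hp : 0 < p) (h : ℕ → ℝ) (h0 : ∀ n, ¬ p ∣ n → h n = 0) :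
    ∑ n ∈ Icc 1 N, h n = ∑ m ∈ Icc 1 (N/p), h (p*m) := by
  have h1 : ∑ n ∈ Icc 1 N, h n = ∑ n ∈ (Icc 1 N).filter (fun n => p ∣ n), h n := by
    rw [Finset.sum_filter]
    apply Finset.sum_congr rfl
    intro n _
    split_ifs with hd
    · rfl
    · exact h0 n hd
  rw [h1]
  symm
  apply Finset.sum_nbij' (fun m => p*m) (fun n => n/p)
  · intro m hm
    rw [Finset.mem_Icc] at hm
    rw [Finset.mem_filter, Finset.mem_Icc]
    refine ⟨⟨?_, ?_⟩, dvd_mul_right p m⟩
    · nlinarith
    · calc p * m ≤ p * (N/p) := Nat.mul_le_mul_left p hm.2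
        _ ≤ N := Nat.mul_div_le N p
  · intro n hn
    rw [Finset.mem_filter, Finset.mem_Icc] at hn
    rw [Finset.mem_Icc]
    obtain ⟨⟨hn1, hn2⟩, k, hk⟩ := hn
    subst hk
    rw [Nat.mul_div_cancel_left k hp]
    constructor
    · rcases Nat.eq_zero_or_pos k with h | h
      · rw [h] at hn1; omega
      · exact h
    · rw [Nat.le_div_iff_mul_le hp]; linarith
  · intro m _
    exact Nat.mul_div_cancel_left m hp
  · intro n hn
    rw [Finset.mem_filter] at hn
    exact Nat.mul_div_cancel' hn.2
  · intro m _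
    rfl

theorem chernoff_sum (S : Finset ℕ) (hS : ∀ p ∈ S, p.Prime) : ∀ N : ℕ,
    ∑ n ∈ Icc 1 N, (21/20:ℝ)^(Om S n) ≤ N * ∏ p ∈ S, (1 + 1/(20*(p:ℝ)-21)) := by
  induction S using Finset.induction_on with
  | empty =>
    intro N
    simp [Om]
  | insert p S hpS ih =>
    have ihS := ih (fun q hq => hS q (Finset.mem_insert_of_mem hq))
    have hp : p.Prime := hS p (Finset.mem_insert_self p S)
    have hp2 : (2:ℝ) ≤ p := by exact_mod_cast hp.two_le
    set C : ℝ := ∏ q ∈ S, (1 + 1/(20*(q:ℝ)-21)) with hC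
    have hC0 : 0 ≤ C := by
      apply Finset.prod_nonneg
      intro q hq
      have : (2:ℝ) ≤ q := by exact_mod_cast (hS q (Finset.mem_insert_of_mem hq)).two_le
      have : 0 < 20*(q:ℝ)-21 := by linarith
      positivity
    set f : ℕ → ℝ := fun n => (21/20:ℝ)^(Om S n) with hf
    set g : ℕ → ℝ := fun n => (21/20:ℝ)^(Om (insert p S) n) with hg
    have hgf : ∀ n, g n = (21/20:ℝ)^(n.factorization p) * f n := by
      intro n
      simp only [hg, hf, Om]
      rw [Finset.sum_insert hpS, pow_add]
    have hfp : ∀ m, 1 ≤ m → f (p*m) = f m := by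
      intro m hm
      simp only [hf]
      rw [Om_mul S p m hp.ne_zero (by omega)]
      have : Om S p = 0 := by
        unfold Om
        apply Finset.sum_eq_zero
        intro q hq
        rw [hp.factorization]
        rw [Finsupp.single_apply, if_neg]
        intro h
        exact hpS (h ▸ hq)
      rw [this, zero_add]
    have hgp : ∀ m, 1 ≤ m → g (p*m) = 21/20 * g m := by
      intro m hm
      rw [hgf, hgf, hfp m hm, Nat.factorization_mul hp.ne_zero (by omega)]
      simp only [Finsupp.coe_add, Pi.add_apply, hp.factorization_self]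
      rw [pow_add, pow_one]; ring
    -- the difference
    have hH : ∀ N : ℕ, ∑ n ∈ Icc 1 N, (g n - f n) ≤ C * N / (20*(p:ℝ)-21) := by
      intro N
      induction N using Nat.strong_induction_on with
      | _ N IH =>
        rcases Nat.eq_zero_or_pos N with hN | hN
        · subst hN; simp
        · have h1 := sum_multiples p N hp.pos (fun n => g n - f n) (by
            intro n hn
            have : n.factorization p = 0 := Nat.factorization_eq_zero_of_not_dvd hn
            rw [hgf, this]; simp)
          rw [h1]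
          have h2 : ∑ m ∈ Icc 1 (N/p), (g (p*m) - f (p*m))
              = 21/20 * ∑ m ∈ Icc 1 (N/p), (g m - f m) + 1/20 * ∑ m ∈ Icc 1 (N/p), f m := by
            rw [Finset.mul_sum, Finset.mul_sum, ← Finset.sum_add_distrib]
            apply Finset.sum_congr rfl
            intro m hm
            rw [Finset.mem_Icc] at hm
            rw [hgp m hm.1, hfp m hm.1]; ring
          rw [h2]
          have h3 := IH (N/p) (Nat.div_lt_self hN hp.one_lt)
          have h4 := ihS (N/p)
          have h5 : ((N/p : ℕ):ℝ) ≤ (N:ℝ)/p := Nat.cast_div_le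
          have hD : 0 < 20*(p:ℝ)-21 := by linarith
          have hp0 : (0:ℝ) < p := by linarith
          have h6 : C * ((N/p : ℕ):ℝ) / (20*(p:ℝ)-21) ≤ C * ((N:ℝ)/p) / (20*(p:ℝ)-21) := by
            apply div_le_div_of_nonneg_right _ hD.le
            exact mul_le_mul_of_nonneg_left h5 hC0
          have h7 : ((N/p : ℕ):ℝ) * C ≤ (N:ℝ)/p * C := mul_le_mul_of_nonneg_right h5 hC0
          have h8 : 21/20 * (C * ((N:ℝ)/p) / (20*(p:ℝ)-21)) + 1/20 * ((N:ℝ)/p * C)
              = C * N / (20*(p:ℝ)-21) := by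
            field_simp
            ring
          linarith
    intro N
    have h1 : ∑ n ∈ Icc 1 N, g n = ∑ n ∈ Icc 1 N, (g n - f n) + ∑ n ∈ Icc 1 N, f n := by
      rw [← Finset.sum_add_distrib]
      apply Finset.sum_congr rfl
      intro n _; ring
    have h2 := hH N
    have h3 := ihS N
    rw [Finset.prod_insert hpS, ← hC]
    have hD : 0 < 20*(p:ℝ)-21 := by linarith
    have h4 : (N:ℝ) * ((1 + 1/(20*(p:ℝ)-21)) * C) = C * N / (20*(p:ℝ)-21) + N * C := by
      field_simp
      ring
    rw [h4, h1]
    linarith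

/-- few numbers have more than `1.05 P(z)` prime factors below `z` -/
theorem chernoff (z N : ℕ) :
    (((Icc 1 N).filter (fun n => 21/20 * PS z < (Om z.primesBelow n : ℝ))).card : ℝ)
      ≤ 2 * N * Real.exp (-(PS z / 820)) := by
  have hprime : ∀ p ∈ z.primesBelow, p.Prime := fun p hp => Nat.prime_of_mem_primesBelow hp
  have hPS0 : 0 ≤ PS z := Finset.sum_nonneg (fun p _ => by positivity)
  set T := (Icc 1 N).filter (fun n => 21/20 * PS z < (Om z.primesBelow n : ℝ)) with hT
  have h1 : (T.card : ℝ) * Real.exp (21/410 * PS z) ≤ ∑ n ∈ Icc 1 N, (21/20:ℝ)^(Om z.primesBelow n) := by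
    calc (T.card : ℝ) * Real.exp (21/410 * PS z) = ∑ n ∈ T, Real.exp (21/410 * PS z) := by
          rw [Finset.sum_const, nsmul_eq_mul]
      _ ≤ ∑ n ∈ T, (21/20:ℝ)^(Om z.primesBelow n) := by
          apply Finset.sum_le_sum
          intro n hn
          rw [hT, Finset.mem_filter] at hn
          have hlog : 2/41 ≤ Real.log (21/20) := by
            have := Real.le_log_one_add_of_nonneg (x := 1/20) (by norm_num)
            norm_num at this ⊢
            exact this
          have e : (21/20:ℝ)^(Om z.primesBelow n) = Real.exp (Real.log (21/20) * (Om z.primesBelow n : ℝ)) := by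
            rw [Real.exp_mul, Real.exp_log (by norm_num), Real.rpow_natCast]
          rw [e]
          apply Real.exp_le_exp.mpr
          have h2 := hn.2
          nlinarith
      _ ≤ _ := by
          apply Finset.sum_le_sum_of_subset_of_nonneg
          · exact Finset.filter_subset _ _
          · intro n _ _; positivity
  have h2 := chernoff_sum z.primesBelow hprime N
  have h3 : ∏ p ∈ z.primesBelow, (1 + 1/(20*(p:ℝ)-21)) ≤ Real.exp (PS z / 20 + 1/9) := by
    calc ∏ p ∈ z.primesBelow, (1 + 1/(20*(p:ℝ)-21))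
        ≤ ∏ p ∈ z.primesBelow, Real.exp (1/20 * (1/(p:ℝ)) + 1/9 * (1/(p:ℝ)^2)) := by
          apply Finset.prod_le_prod
          · intro p hp
            have : (2:ℝ) ≤ p := by exact_mod_cast (hprime p hp).two_le
            have : 0 < 20*(p:ℝ)-21 := by linarith
            positivity
          · intro p hp
            have hp2 : (2:ℝ) ≤ p := by exact_mod_cast (hprime p hp).two_le
            have hD : 0 < 20*(p:ℝ)-21 := by linarith
            have hle : 1/(20*(p:ℝ)-21) ≤ 1/20 * (1/(p:ℝ)) + 1/9 * (1/(p:ℝ)^2) := by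
              have e : 1/20 * (1/(p:ℝ)) + 1/9 * (1/(p:ℝ)^2) = (9*p+20)/(180*(p:ℝ)^2) := by
                field_simp
                ring
              rw [e, div_le_div_iff₀ hD (by positivity)]
              nlinarith
            have := Real.add_one_le_exp (1/20 * (1/(p:ℝ)) + 1/9 * (1/(p:ℝ)^2))
            linarith
      _ = Real.exp (∑ p ∈ z.primesBelow, (1/20 * (1/(p:ℝ)) + 1/9 * (1/(p:ℝ)^2))) := by
          rw [Real.exp_sum]
      _ ≤ Real.exp (PS z / 20 + 1/9) := by
          apply Real.exp_le_exp.mpr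
          rw [Finset.sum_add_distrib, ← Finset.mul_sum, ← Finset.mul_sum]
          have := sum_sq z
          unfold PS
          linarith
  have hN0 : (0:ℝ) ≤ N := Nat.cast_nonneg N
  have h4 : (T.card : ℝ) * Real.exp (21/410 * PS z) ≤ N * Real.exp (PS z / 20 + 1/9) :=
    le_trans h1 (le_trans h2 (mul_le_mul_of_nonneg_left h3 hN0))
  have h5 : (T.card : ℝ) ≤ N * Real.exp (PS z / 20 + 1/9) * Real.exp (-(21/410 * PS z)) := by
    rw [Real.exp_neg, ← div_eq_mul_inv, le_div_iff₀ (Real.exp_pos _)]
    exact h4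
  refine le_trans h5 ?_
  rw [mul_assoc, ← Real.exp_add]
  have h6 : PS z / 20 + 1/9 + -(21/410 * PS z) = 1/9 + -(PS z / 820) := by ring
  rw [h6, Real.exp_add]
  have h7 : Real.exp (1/9) ≤ 2 := by
    have he : Real.exp 1 < 2.72 := lt_trans Real.exp_one_lt_d9 (by norm_num)
    have h8 : Real.exp (1/9) ^ 9 ≤ 2 ^ 9 := by
      rw [← Real.exp_nat_mul]
      have h9 : Real.exp (((9:ℕ):ℝ) * (1/9)) ≤ Real.exp 1 := by
        apply Real.exp_le_exp.mpr; norm_num
      exact le_trans h9 (le_trans he.le (by norm_num))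
    exact le_of_pow_le_pow_left₀ (by norm_num) (by norm_num) h8
  have h10 := Real.exp_pos (-(PS z / 820))
  calc (N:ℝ) * (Real.exp (1/9) * Real.exp (-(PS z / 820)))
      ≤ N * (2 * Real.exp (-(PS z / 820))) := by
        apply mul_le_mul_of_nonneg_left _ hN0
        exact mul_le_mul_of_nonneg_right h7 h10.le
    _ = _ := by ring

end Pool.Agent.UnitFrac
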