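import Mathlib

set_option autoImplicit false

/-!
An abstract form of Brun's pure sieve for weights in `[0,1]`.
-/

namespace Pool.Agent.UnitFrac

open Finset

/-- truncated inclusion-exclusion sum -/
noncomputable def trunc (u : ℕ → ℝ) (m : ℕ) (S : Finset ℕ) : ℝ :=
  ∑ R ∈ S.powerset, if R.card ≤ m then ∏ p ∈ R, (-u p) else 0

lemma trunc_zero (u : ℕ → ℝ) (S : Finset ℕ) : trunc u 0 S = 1 := by
  unfold trunc
  rw [Finset.sum_eq_single ∅]
  · simp
  · intro R _ hR
    have : R.card ≠ 0 := by simpa [Finset.card_eq_zero] using hR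
    rw [if_neg (by omega)]
  · intro h
    exact absurd (Finset.empty_mem_powerset S) h

lemma trunc_insert (u : ℕ → ℝ) (m : ℕ) (S : Finset ℕ) (a : ℕ) (ha : a ∉ S) :
    trunc u (m+1) (insert a S) = trunc u (m+1) S - u a * trunc u m S := by
  unfold trunc
  rw [Finset.sum_powerset_insert ha, Finset.mul_sum, sub_eq_add_neg, ← Finset.sum_neg_distrib]
  congr 1
  apply Finset.sum_congr rfl
  intro R hR
  have haR : a ∉ R := fun h => ha (Finset.mem_powerset.mp hR h)
  rw [Finset.card_insert_of_notMem haR]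
  by_cases h : R.card ≤ m
  · rw [if_pos (by omega), if_pos h, Finset.prod_insert haR]; ring
  · rw [if_neg (by omega), if_neg h]; ring

lemma bonferroni (u : ℕ → ℝ) (S : Finset ℕ) (h0 : ∀ p ∈ S, 0 ≤ u p) (h1 : ∀ p ∈ S, u p ≤ 1) :
    ∀ m : ℕ, 0 ≤ (-1 : ℝ)^m * (trunc u m S - ∏ p ∈ S, (1 - u p)) := by
  induction S using Finset.induction_on with
  | empty =>
    intro m
    have : trunc u m ∅ = 1 := by simp [trunc]
    rw [this]; simp
  | insert a S ha ih =>
    have ih' := ih (fun p hp => h0 p (Finset.mem_insert_of_mem hp))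
      (fun p hp => h1 p (Finset.mem_insert_of_mem hp))
    intro m
    have ha0 := h0 a (Finset.mem_insert_self a S)
    have ha1 := h1 a (Finset.mem_insert_self a S)
    rw [Finset.prod_insert ha]
    cases m with
    | zero =>
      rw [trunc_zero]
      have hp1 : ∏ p ∈ S, (1 - u p) ≤ 1 := by
        apply Finset.prod_le_one
        · intro p hp; have := h1 p (Finset.mem_insert_of_mem hp); linarith
        · intro p hp; have := h0 p (Finset.mem_insert_of_mem hp); linarith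
      have hp0 : 0 ≤ ∏ p ∈ S, (1 - u p) := by
        apply Finset.prod_nonneg
        intro p hp; have := h1 p (Finset.mem_insert_of_mem hp); linarith
      simp only [pow_zero, one_mul]
      nlinarith
    | succ m =>
      rw [trunc_insert u m S a ha]
      have e : (-1 : ℝ)^(m+1) * (trunc u (m+1) S - u a * trunc u m S - (1 - u a) * ∏ p ∈ S, (1 - u p))
          = (-1 : ℝ)^(m+1) * (trunc u (m+1) S - ∏ p ∈ S, (1 - u p))
            + u a * ((-1 : ℝ)^m * (trunc u m S - ∏ p ∈ S, (1 - u p))) := by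
        rw [pow_succ]; ring
      rw [e]
      exact add_nonneg (ih' (m+1)) (mul_nonneg ha0 (ih' m))

lemma trunc_ge (u : ℕ → ℝ) (S : Finset ℕ) (h0 : ∀ p ∈ S, 0 ≤ u p) (h1 : ∀ p ∈ S, u p ≤ 1)
    (r : ℕ) : ∏ p ∈ S, (1 - u p) ≤ trunc u (2*r) S := by
  have := bonferroni u S h0 h1 (2*r)
  rw [pow_mul] at this
  simp only [even_two, Even.neg_pow, one_pow, one_mul] at this
  linarith

/-- the truncated sum differs from the product by at most a Rankin tail. -/
lemma trunc_le (c : ℕ → ℝ) (S : Finset ℕ) (h0 : ∀ p ∈ S, 0 ≤ c p) (m : ℕ) (lam : ℝ)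
    (hlam : 1 ≤ lam) :
    trunc c m S ≤ ∏ p ∈ S, (1 - c p) + lam⁻¹ ^ m * ∏ p ∈ S, (1 + lam * c p) := by
  have hprod : ∏ p ∈ S, (1 - c p) = ∑ R ∈ S.powerset, ∏ p ∈ R, (-c p) := by
    have := Finset.prod_one_add (f := fun p => -c p) S
    simpa [sub_eq_add_neg] using this
  have hprod2 : ∏ p ∈ S, (1 + lam * c p) = ∑ R ∈ S.powerset, ∏ p ∈ R, (lam * c p) :=
    Finset.prod_one_add (f := fun p => lam * c p) S
  rw [hprod, hprod2, Finset.mul_sum, ← Finset.sum_add_distrib]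
  unfold trunc
  apply Finset.sum_le_sum
  intro R hR
  have hRS := Finset.mem_powerset.mp hR
  have hc0 : ∀ p ∈ R, 0 ≤ c p := fun p hp => h0 p (hRS hp)
  have hl0 : (0:ℝ) < lam := by linarith
  have hnn : 0 ≤ lam⁻¹ ^ m * ∏ p ∈ R, (lam * c p) := by
    apply mul_nonneg (pow_nonneg (inv_nonneg.mpr hl0.le) _)
    exact Finset.prod_nonneg (fun p hp => mul_nonneg hl0.le (hc0 p hp))
  by_cases h : R.card ≤ m
  · rw [if_pos h]; linarith
  · rw [if_neg h]
    have habs : |∏ p ∈ R, (-c p)| = ∏ p ∈ R, c p := by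
      rw [Finset.abs_prod]
      apply Finset.prod_congr rfl
      intro p hp
      rw [abs_neg, abs_of_nonneg (hc0 p hp)]
    have hge : -(∏ p ∈ R, c p) ≤ ∏ p ∈ R, (-c p) := by
      rw [← habs]; exact neg_abs_le _
    have hpow : ∏ p ∈ R, c p ≤ lam⁻¹ ^ m * ∏ p ∈ R, (lam * c p) := by
      rw [Finset.prod_mul_distrib, Finset.prod_const, ← mul_assoc]
      have h2 : 1 ≤ lam⁻¹ ^ m * lam ^ R.card := by
        have : lam ^ R.card = lam ^ m * lam ^ (R.card - m) := by
          rw [← pow_add]; congr 1; omega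
        rw [this, ← mul_assoc, ← mul_pow, inv_mul_cancel₀ hl0.ne', one_pow, one_mul]
        exact one_le_pow₀ hlam
      have h3 : 0 ≤ ∏ p ∈ R, c p := Finset.prod_nonneg hc0
      nlinarith
    linarith

/-- Abstract Brun sieve. -/
theorem brun {α : Type*} (B : Finset α) (S : Finset ℕ) (U : ℕ → α → ℝ) (c : ℕ → ℝ)
    (V eta lam : ℝ) (r : ℕ)
    (hU0 : ∀ p ∈ S, ∀ x ∈ B, 0 ≤ U p x) (hU1 : ∀ p ∈ S, ∀ x ∈ B, U p x ≤ 1)
    (hc0 : ∀ p ∈ S, 0 ≤ c p) (hV : 0 ≤ V) (heta : 0 ≤ eta) (hlam : 1 ≤ lam)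
    (hdist : ∀ R ⊆ S, R.card ≤ 2*r →
      |∑ x ∈ B, ∏ p ∈ R, U p x - V * ∏ p ∈ R, c p| ≤ eta * (V * ∏ p ∈ R, c p)) :
    ∑ x ∈ B, ∏ p ∈ S, (1 - U p x) ≤
      V * (∏ p ∈ S, (1 - c p) + lam⁻¹ ^ (2*r) * ∏ p ∈ S, (1 + lam * c p)
        + eta * ∏ p ∈ S, (1 + c p)) := by
  have step1 : ∑ x ∈ B, ∏ p ∈ S, (1 - U p x) ≤ ∑ x ∈ B, trunc (fun p => U p x) (2*r) S := by
    apply Finset.sum_le_sum
    intro x hx
    exact trunc_ge (fun p => U p x) S (fun p hp => hU0 p hp x hx) (fun p hp => hU1 p hp x hx) r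
  have step2 : ∑ x ∈ B, trunc (fun p => U p x) (2*r) S
      = ∑ R ∈ S.powerset, if R.card ≤ 2*r then (-1)^R.card * ∑ x ∈ B, ∏ p ∈ R, U p x else 0 := by
    unfold trunc
    rw [Finset.sum_comm]
    apply Finset.sum_congr rfl
    intro R _
    split_ifs with h
    · rw [Finset.mul_sum]
      apply Finset.sum_congr rfl
      intro x _
      rw [Finset.prod_neg]
    · simp
  have step3 : (∑ R ∈ S.powerset, if R.card ≤ 2*r then (-1)^R.card * ∑ x ∈ B, ∏ p ∈ R, U p x else 0)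
      ≤ V * trunc c (2*r) S + eta * (V * ∏ p ∈ S, (1 + c p)) := by
    rw [Finset.prod_one_add (f := c) S]
    unfold trunc
    rw [Finset.mul_sum, Finset.mul_sum, Finset.mul_sum, ← Finset.sum_add_distrib]
    apply Finset.sum_le_sum
    intro R hR
    have hRS := Finset.mem_powerset.mp hR
    have hp0 : 0 ≤ ∏ p ∈ R, c p := Finset.prod_nonneg (fun p hp => hc0 p (hRS hp))
    split_ifs with h
    · have hd := hdist R hRS h
      rw [Finset.prod_neg]
      rcases neg_one_pow_eq_or ℝ R.card with h1 | h1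
      · rw [h1]
        have := (abs_le.mp hd).2
        nlinarith
      · rw [h1]
        have := (abs_le.mp hd).1
        nlinarith
    · have : 0 ≤ eta * (V * ∏ p ∈ R, c p) := mul_nonneg heta (mul_nonneg hV hp0)
      simpa using this
  have step4 := trunc_le c S hc0 (2*r) lam hlam
  calc ∑ x ∈ B, ∏ p ∈ S, (1 - U p x) ≤ _ := step1
    _ = _ := step2
    _ ≤ _ := step3
    _ ≤ V * (∏ p ∈ S, (1 - c p) + lam⁻¹ ^ (2*r) * ∏ p ∈ S, (1 + lam * c p))
        + eta * (V * ∏ p ∈ S, (1 + c p)) := by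
        have := mul_le_mul_of_nonneg_left step4 hV
        linarith
    _ = _ := by ring

end Pool.Agent.UnitFrac
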