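import Mathlib

set_option autoImplicit false

/-!
Sums of products of periodic functions over intervals.
-/

namespace Pool.Agent.UnitFrac

open Finset

lemma sum_coprime_mul (m n : ℕ) (hm : 0 < m) (hn : 0 < n) (hmn : Nat.Coprime m n) (f g : ℕ → ℝ)
    (hf : ∀ k, f (k % m) = f k) (hg : ∀ k, g (k % n) = g k) :
    ∑ k ∈ range (m*n), f k * g k = (∑ i ∈ range m, f i) * (∑ j ∈ range n, g j) := by
  rw [Finset.sum_mul_sum, ← Finset.sum_product']
  apply Finset.sum_nbij' (fun k => (k % m, k % n))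
    (fun ij => (Nat.chineseRemainder hmn ij.1 ij.2 : ℕ))
  · intro k hk
    simp only [Finset.mem_product, Finset.mem_range]
    exact ⟨Nat.mod_lt _ hm, Nat.mod_lt _ hn⟩
  · intro ij hij
    simp only [Finset.mem_range]
    exact Nat.chineseRemainder_lt_mul hmn _ _ hm.ne' hn.ne'
  · intro k hk
    simp only [Finset.mem_range] at hk
    have h := Nat.chineseRemainder_modEq_unique hmn (a := k % m) (b := k % n) (z := k)
      (Nat.mod_modEq k m).symm (Nat.mod_modEq k n).symm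
    have h2 := Nat.chineseRemainder_lt_mul hmn (k % m) (k % n) hm.ne' hn.ne'
    unfold Nat.ModEq at h
    rw [Nat.mod_eq_of_lt hk, Nat.mod_eq_of_lt h2] at h
    exact h.symm
  · intro ij hij
    simp only [Finset.mem_product, Finset.mem_range] at hij
    have h := (Nat.chineseRemainder hmn ij.1 ij.2).2
    unfold Nat.ModEq at h
    apply Prod.ext
    · simp only
      rw [h.1, Nat.mod_eq_of_lt hij.1]
    · simp only
      rw [h.2, Nat.mod_eq_of_lt hij.2]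
  · intro k hk
    simp only
    rw [hf, hg]

/-- full period sum of a product of functions with coprime periods -/
lemma sum_period (R : Finset ℕ) (hR : ∀ p ∈ R, p.Prime) (φ : ℕ → ℕ → ℝ)
    (hφ : ∀ p ∈ R, ∀ k, φ p (k % p) = φ p k) :
    (∀ k, ∏ p ∈ R, φ p (k % (∏ p ∈ R, p)) = ∏ p ∈ R, φ p k) ∧
    ∑ k ∈ range (∏ p ∈ R, p), ∏ p ∈ R, φ p k = ∏ p ∈ R, ∑ i ∈ range p, φ p i := by
  induction R using Finset.induction_on with
  | empty => simp
  | insert a S ha ih =>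
    have hS : ∀ p ∈ S, p.Prime := fun p hp => hR p (Finset.mem_insert_of_mem hp)
    have haP : a.Prime := hR a (Finset.mem_insert_self a S)
    obtain ⟨ih1, ih2⟩ := ih hS (fun p hp => hφ p (Finset.mem_insert_of_mem hp))
    have hq : 0 < ∏ p ∈ S, p := Finset.prod_pos (fun p hp => (hS p hp).pos)
    have hcop : Nat.Coprime a (∏ p ∈ S, p) := by
      apply Nat.Coprime.prod_right
      intro p hp
      exact (Nat.coprime_primes haP (hS p hp)).mpr (fun h => ha (h ▸ hp))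
    constructor
    · intro k
      apply Finset.prod_congr rfl
      intro p hp
      rw [← hφ p hp (k % _), Nat.mod_mod_of_dvd k (Finset.dvd_prod_of_mem _ hp), hφ p hp]
    · rw [Finset.prod_insert ha, Finset.prod_insert ha]
      simp_rw [Finset.prod_insert ha]
      rw [sum_coprime_mul a (∏ p ∈ S, p) haP.pos hq hcop (φ a) (fun k => ∏ p ∈ S, φ p k)
        (hφ a (Finset.mem_insert_self a S)) ih1, ih2]

lemma sum_Ico_period (q : ℕ) (Φ : ℕ → ℝ) (hΦ : ∀ k, Φ (k + q) = Φ k) (A : ℕ) :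
    ∑ k ∈ Ico A (A+q), Φ k = ∑ k ∈ range q, Φ k := by
  induction A with
  | zero => simp
  | succ A ih =>
    rw [← ih]
    rcases Nat.eq_zero_or_pos q with hq | hq
    · subst hq; simp
    · have h1 : ∑ k ∈ Ico A (A+1+q), Φ k = Φ A + ∑ k ∈ Ico (A+1) (A+1+q), Φ k := by
        rw [Finset.sum_eq_sum_Ico_succ_bot (by omega)]
      have h2 : ∑ k ∈ Ico A (A+q+1), Φ k = ∑ k ∈ Ico A (A+q), Φ k + Φ (A+q) := by
        rw [Finset.sum_Ico_succ_top (by omega)]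
      have h3 : A + 1 + q = A + q + 1 := by ring
      rw [h3] at h1 ⊢
      rw [h2, hΦ] at h1
      linarith

lemma sum_Ico_multi (q : ℕ) (Φ : ℕ → ℝ) (hΦ : ∀ k, Φ (k + q) = Φ k) (A m : ℕ) :
    ∑ k ∈ Ico A (A+m*q), Φ k = m * ∑ k ∈ range q, Φ k := by
  induction m with
  | zero => simp
  | succ m ih =>
    rw [← Finset.sum_Ico_consecutive Φ (m := A) (n := A+m*q) (by omega) (by nlinarith), ih]
    have : A + (m+1)*q = (A + m*q) + q := by ring
    rw [this, sum_Ico_period q Φ hΦ]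
    push_cast; ring

lemma sum_Ico_bounds (q : ℕ) (hq : 0 < q) (Φ : ℕ → ℝ) (hΦ : ∀ k, Φ (k + q) = Φ k)
    (h0 : ∀ k, 0 ≤ Φ k) (A H : ℕ) :
    ((H:ℝ)/q - 1) * ∑ k ∈ range q, Φ k ≤ ∑ k ∈ Ico A (A+H), Φ k ∧
    ∑ k ∈ Ico A (A+H), Φ k ≤ ((H:ℝ)/q + 1) * ∑ k ∈ range q, Φ k := by
  set W := ∑ k ∈ range q, Φ k with hW
  have hW0 : 0 ≤ W := Finset.sum_nonneg (fun k _ => h0 k)
  have hqr : (0:ℝ) < q := by exact_mod_cast hq
  have hlow : (H/q)*q ≤ H := Nat.div_mul_le_self H q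
  have hup : H ≤ (H/q + 1)*q := by
    have h1 := Nat.div_add_mod H q
    have h2 := Nat.mod_lt H hq
    have h3 : (H/q + 1)*q = q * (H/q) + q := by ring
    omega
  have hdl : (H:ℝ)/q - 1 ≤ ((H/q : ℕ) : ℝ) := by
    have : (H:ℝ) ≤ (((H/q : ℕ) : ℝ) + 1) * q := by exact_mod_cast hup
    have h2 : (H:ℝ)/q ≤ ((H/q : ℕ) : ℝ) + 1 := by
      rw [div_le_iff₀ hqr]; exact this
    linarith
  have hdu : ((H/q : ℕ) : ℝ) ≤ (H:ℝ)/q := Nat.cast_div_le
  constructor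
  · calc ((H:ℝ)/q - 1) * W ≤ ((H/q : ℕ) : ℝ) * W := mul_le_mul_of_nonneg_right hdl hW0
      _ = ∑ k ∈ Ico A (A+(H/q)*q), Φ k := by rw [sum_Ico_multi q Φ hΦ]
      _ ≤ ∑ k ∈ Ico A (A+H), Φ k := by
        apply Finset.sum_le_sum_of_subset_of_nonneg
        · apply Finset.Ico_subset_Ico_right; omega
        · intro k _ _; exact h0 k
  · have hstep : ∑ k ∈ Ico A (A+H), Φ k ≤ ∑ k ∈ Ico A (A+(H/q+1)*q), Φ k := by
      apply Finset.sum_le_sum_of_subset_of_nonneg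
      · apply Finset.Ico_subset_Ico_right; omega
      · intro k _ _; exact h0 k
    rw [sum_Ico_multi q Φ hΦ] at hstep
    refine le_trans hstep (mul_le_mul_of_nonneg_right ?_ hW0)
    push_cast; linarith

/-- one-dimensional equidistribution with product weights -/
lemma sum_Ico_prod_bounds (R : Finset ℕ) (hR : ∀ p ∈ R, p.Prime) (φ : ℕ → ℕ → ℝ)
    (hφ : ∀ p ∈ R, ∀ k, φ p (k % p) = φ p k) (h0 : ∀ p ∈ R, ∀ k, 0 ≤ φ p k) (A H : ℕ) :
    ((H:ℝ)/(∏ p ∈ R, p : ℕ) - 1) * ∏ p ∈ R, ∑ i ∈ range p, φ p i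
      ≤ ∑ k ∈ Ico A (A+H), ∏ p ∈ R, φ p k ∧
    ∑ k ∈ Ico A (A+H), ∏ p ∈ R, φ p k
      ≤ ((H:ℝ)/(∏ p ∈ R, p : ℕ) + 1) * ∏ p ∈ R, ∑ i ∈ range p, φ p i := by
  obtain ⟨h1, h2⟩ := sum_period R hR φ hφ
  have hq : 0 < ∏ p ∈ R, p := Finset.prod_pos (fun p hp => (hR p hp).pos)
  rw [← h2]
  apply sum_Ico_bounds _ hq (fun k => ∏ p ∈ R, φ p k)
  · intro k
    rw [← h1 (k + _), Nat.add_mod_right, h1]
  · intro k
    exact Finset.prod_nonneg (fun p hp => h0 p hp k)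

end Pool.Agent.UnitFrac
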