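import Mathlib
import Pool.Agent.UnitFrac.Brun
import Pool.Agent.UnitFrac.Periodic
import Pool.Agent.UnitFrac.Primes

set_option autoImplicit false

/-!
Two applications of Brun's sieve.
-/

namespace Pool.Agent.UnitFrac

open Finset

lemma prod_one_add_le_exp (S : Finset ℕ) (c : ℕ → ℝ) (h : ∀ p ∈ S, 0 ≤ c p) :
    ∏ p ∈ S, (1 + c p) ≤ Real.exp (∑ p ∈ S, c p) := by
  rw [Real.exp_sum]
  apply Finset.prod_le_prod
  · intro p hp; have := h p hp; linarith
  · intro p hp
    have := Real.add_one_le_exp (c p)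
    linarith

lemma prod_one_sub_le_exp (S : Finset ℕ) (c : ℕ → ℝ) (h : ∀ p ∈ S, c p ≤ 1) :
    ∏ p ∈ S, (1 - c p) ≤ Real.exp (-∑ p ∈ S, c p) := by
  rw [← Finset.sum_neg_distrib, Real.exp_sum]
  apply Finset.prod_le_prod
  · intro p hp; have := h p hp; linarith
  · intro p hp
    have := Real.add_one_le_exp (-(c p))
    linarith

lemma tail_bound (S : Finset ℕ) (c : ℕ → ℝ) (P : ℝ) (i : ℕ) (h0 : ∀ p ∈ S, 0 ≤ c p)
    (hi : 1 ≤ i) (hP : P ≤ i + 1/2) (hc : ∑ p ∈ S, c p ≤ 48/25 * P) :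
    (Real.exp 1)⁻¹ ^ (2*(6*i)) * ∏ p ∈ S, (1 + Real.exp 1 * c p) ≤ Real.exp (-(48/25)*P) := by
  have he : Real.exp 1 < 2.72 := lt_trans Real.exp_one_lt_d9 (by norm_num)
  have h1 : ∏ p ∈ S, (1 + Real.exp 1 * c p) ≤ Real.exp (∑ p ∈ S, Real.exp 1 * c p) := by
    apply prod_one_add_le_exp S (fun p => Real.exp 1 * c p)
    intro p hp
    exact mul_nonneg (Real.exp_pos 1).le (h0 p hp)
  have h2 : (Real.exp 1)⁻¹ ^ (2*(6*i)) = Real.exp (-(12*i)) := by
    rw [← Real.exp_neg, ← Real.exp_nat_mul]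
    congr 1
    push_cast; ring
  rw [h2]
  have hi' : (1:ℝ) ≤ i := by exact_mod_cast hi
  calc Real.exp (-(12*i)) * ∏ p ∈ S, (1 + Real.exp 1 * c p)
      ≤ Real.exp (-(12*i)) * Real.exp (∑ p ∈ S, Real.exp 1 * c p) :=
        mul_le_mul_of_nonneg_left h1 (Real.exp_pos _).le
    _ = Real.exp (-(12*i) + ∑ p ∈ S, Real.exp 1 * c p) := by rw [Real.exp_add]
    _ ≤ Real.exp (-(48/25)*P) := by
        apply Real.exp_le_exp.mpr
        rw [← Finset.mul_sum]
        have hs0 : 0 ≤ ∑ p ∈ S, c p := Finset.sum_nonneg h0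
        have : Real.exp 1 * ∑ p ∈ S, c p ≤ 2.72 * (48/25 * P) := by
          apply mul_le_mul he.le hc hs0 (by norm_num)
        nlinarith

lemma eta_bound (S : Finset ℕ) (c : ℕ → ℝ) (P eta : ℝ) (i : ℕ) (h0 : ∀ p ∈ S, 0 ≤ c p)
    (hi : 1 ≤ i) (hP : P ≤ i + 1/2) (hc : ∑ p ∈ S, c p ≤ 48/25 * P)
    (heta : eta ≤ Real.exp (-(6*i))) :
    eta * ∏ p ∈ S, (1 + c p) ≤ Real.exp (-(48/25)*P) := by
  have h1 := prod_one_add_le_exp S c h0
  have hi' : (1:ℝ) ≤ i := by exact_mod_cast hi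
  calc eta * ∏ p ∈ S, (1 + c p) ≤ Real.exp (-(6*i)) * Real.exp (∑ p ∈ S, c p) := by
        apply mul_le_mul heta h1 _ (Real.exp_pos _).le
        exact Finset.prod_nonneg (fun p hp => by have := h0 p hp; linarith)
    _ = Real.exp (-(6*i) + ∑ p ∈ S, c p) := by rw [Real.exp_add]
    _ ≤ Real.exp (-(48/25)*P) := by
        apply Real.exp_le_exp.mpr
        nlinarith

lemma prod_le_pow (z : ℕ) (R : Finset ℕ) (hR : R ⊆ z.primesBelow) (m : ℕ) (hm : R.card ≤ m)
    (hz : 1 ≤ z) : ∏ p ∈ R, p ≤ z ^ m := by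
  calc ∏ p ∈ R, p ≤ ∏ p ∈ R, z := by
        apply Finset.prod_le_prod'
        intro p hp
        exact (Nat.lt_of_mem_primesBelow (hR hp)).le
    _ = z ^ R.card := by rw [Finset.prod_const]
    _ ≤ z ^ m := Nat.pow_le_pow_right hz hm

lemma prime_of_mem (z : ℕ) (R : Finset ℕ) (hR : R ⊆ z.primesBelow) : ∀ p ∈ R, p.Prime :=
  fun _ hp => Nat.prime_of_mem_primesBelow (hR hp)

/-- one-dimensional sieve bound -/
theorem sieve_one (z i G : ℕ) (hz : 1 ≤ z) (hi : 1 ≤ i) (hP : PS z ≤ i + 1/2)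
    (hG : 3 * (z:ℝ)^(12*i) * Real.exp (6*i) ≤ G) :
    ∑ g ∈ Ico 1 (1+G), ∏ p ∈ z.primesBelow, (1 - (if p ∣ g then (98/125:ℝ) else 0))
      ≤ 3 * G * Real.exp (-(98/125) * PS z) := by
  have hz' : (1:ℝ) ≤ z := by exact_mod_cast hz
  have hzp : (0:ℝ) < (z:ℝ)^(12*i) := by positivity
  have hG0 : (0:ℝ) < G := by
    have : 0 < 3 * (z:ℝ)^(12*i) * Real.exp (6*i) := by positivity
    linarith
  have hPS0 : 0 ≤ PS z := Finset.sum_nonneg (fun p _ => by positivity)
  have hprime := prime_of_mem z z.primesBelow (Finset.Subset.refl _)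
  set c : ℕ → ℝ := fun p => (98/125:ℝ)/p with hc
  have hc0 : ∀ p ∈ z.primesBelow, 0 ≤ c p := fun p _ => by rw [hc]; positivity
  have hc1 : ∀ p ∈ z.primesBelow, c p ≤ 1 := by
    intro p hp
    have : (1:ℝ) < p := by exact_mod_cast (hprime p hp).one_lt
    rw [hc]
    simp only
    rw [div_le_one (by linarith)]
    linarith
  have hcs : ∑ p ∈ z.primesBelow, c p = 98/125 * PS z := by
    unfold PS
    rw [Finset.mul_sum]
    apply Finset.sum_congr rfl
    intro p _
    rw [hc]; simp only; ring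
  have hb := brun (Ico 1 (1+G)) z.primesBelow (fun p g => if p ∣ g then (98/125:ℝ) else 0) c
    (G:ℝ) ((z:ℝ)^(12*i)/G) (Real.exp 1) (6*i)
    (by intro p _ x _; split_ifs <;> norm_num)
    (by intro p _ x _; split_ifs <;> norm_num)
    hc0 hG0.le (by positivity) (Real.one_le_exp (by norm_num)) ?_
  · refine le_trans hb ?_
    have t1 := prod_one_sub_le_exp z.primesBelow c hc1
    rw [hcs] at t1
    have t2 := tail_bound z.primesBelow c (PS z) i hc0 hi hP (by rw [hcs]; nlinarith)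
    have t3 := eta_bound z.primesBelow c (PS z) ((z:ℝ)^(12*i)/G) i hc0 hi hP
      (by rw [hcs]; nlinarith) (by
        rw [Real.exp_neg, div_le_iff₀ hG0]
        have he : 0 < Real.exp (6*(i:ℝ)) := Real.exp_pos _
        have : (z:ℝ)^(12*i) * Real.exp (6*i) ≤ G := by nlinarith [mul_pos hzp he]
        calc (z:ℝ)^(12*i) = (Real.exp (6*i))⁻¹ * ((z:ℝ)^(12*i) * Real.exp (6*i)) := by
              field_simp
          _ ≤ (Real.exp (6*i))⁻¹ * G := mul_le_mul_of_nonneg_left this (by positivity))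
    have t4 : Real.exp (-(48/25) * PS z) ≤ Real.exp (-(98/125) * PS z) := by
      apply Real.exp_le_exp.mpr; nlinarith
    have t5 : -(98/125 * PS z) = -(98/125) * PS z := by ring
    rw [t5] at t1
    calc _ ≤ (G:ℝ) * (3 * Real.exp (-(98/125) * PS z)) := by
          apply mul_le_mul_of_nonneg_left _ hG0.le
          linarith
      _ = _ := by ring
  · intro R hR hcard
    have hRp := prime_of_mem z R hR
    have hbd := sum_Ico_prod_bounds R hRp (fun p g => if p ∣ g then (98/125:ℝ) else 0)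
      (by
        intro p hp k
        simp only [Nat.dvd_mod_iff (dvd_refl p)])
      (by intro p _ k; split_ifs <;> norm_num) 1 G
    have hin : ∀ p ∈ R, ∑ j ∈ range p, (if p ∣ j then (98/125:ℝ) else 0) = 98/125 := by
      intro p hp
      have hp0 := (hRp p hp).pos
      rw [Finset.sum_eq_single 0]
      · simp
      · intro b hb hb0
        rw [Finset.mem_range] at hb
        rw [if_neg]
        intro hd
        exact absurd (Nat.le_of_dvd (Nat.pos_of_ne_zero hb0) hd) (by omega)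
      · intro h; exact absurd (Finset.mem_range.mpr hp0) h
    rw [Finset.prod_congr rfl hin] at hbd
    set q : ℕ := ∏ p ∈ R, p with hq
    have hq0 : 0 < q := Finset.prod_pos (fun p hp => (hRp p hp).pos)
    have hq0' : (0:ℝ) < q := by exact_mod_cast hq0
    set W : ℝ := ∏ _p ∈ R, (98/125:ℝ) with hW
    have hW0 : 0 ≤ W := Finset.prod_nonneg (fun _ _ => by norm_num)
    have hprodc : ∏ p ∈ R, c p = W / q := by
      rw [hc, hW, hq]
      simp only
      rw [Finset.prod_div_distrib]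
      push_cast
      rfl
    have hqz : (q:ℝ) ≤ (z:ℝ)^(12*i) := by
      have := prod_le_pow z R hR (12*i) (by omega) hz
      exact_mod_cast this
    rw [hprodc]
    have hW1 : W ≤ (z:ℝ)^(12*i)/G * (G * (W/q)) := by
      have e : (z:ℝ)^(12*i)/G * (G * (W/q)) = (z:ℝ)^(12*i) / q * W := by field_simp
      rw [e]
      have : 1 ≤ (z:ℝ)^(12*i) / q := by rw [le_div_iff₀ hq0']; linarith
      nlinarith
    have e2 : (G:ℝ) * (W/q) = (G:ℝ)/q * W := by ring
    rw [abs_le]
    constructor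
    · have := hbd.1
      nlinarith
    · have := hbd.2
      nlinarith

/-- number of pairs of residues with `p ∣ x y (x+y)` -/
lemma pair_count (p : ℕ) (hp : p.Prime) :
    ∑ x ∈ range p, ∑ y ∈ range p, (if p ∣ x ∨ p ∣ y ∨ p ∣ x + y then (16/25:ℝ) else 0)
      = 16/25 * (3 * p - 2) := by
  have hp0 := hp.pos
  have hp2 := hp.two_le
  obtain ⟨n, rfl⟩ : ∃ n, p = n + 1 := ⟨p - 1, by omega⟩
  rw [Finset.sum_range_succ']
  have h0 : ∑ y ∈ range (n+1), (if (n+1) ∣ 0 ∨ (n+1) ∣ y ∨ (n+1) ∣ 0 + y then (16/25:ℝ) else 0)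
      = 16/25 * (n+1) := by
    simp
    ring
  rw [h0]
  have h1 : ∀ x ∈ range n, ∑ y ∈ range (n+1),
      (if (n+1) ∣ (x+1) ∨ (n+1) ∣ y ∨ (n+1) ∣ (x+1) + y then (16/25:ℝ) else 0) = 32/25 := by
    intro x hx
    rw [Finset.mem_range] at hx
    have hx1 : ¬ ((n+1) ∣ (x+1)) := fun h => absurd (Nat.le_of_dvd (by omega) h) (by omega)
    rw [← Finset.sum_filter]
    have hf : (range (n+1)).filter (fun y => (n+1) ∣ (x+1) ∨ (n+1) ∣ y ∨ (n+1) ∣ (x+1) + y)
        = {0, n - x} := by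
      ext y
      simp only [Finset.mem_filter, Finset.mem_range, Finset.mem_insert, Finset.mem_singleton]
      constructor
      · rintro ⟨hy, h | h | h⟩
        · exact absurd h hx1
        · left
          by_contra hy0
          exact absurd (Nat.le_of_dvd (by omega) h) (by omega)
        · right
          obtain ⟨k, hk⟩ := h
          have : k = 1 := by
            have : k < 2 := by
              by_contra hk2
              have : (n+1) * 2 ≤ (n+1) * k := Nat.mul_le_mul_left _ (by omega)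
              omega
            have : 0 < k := by
              rcases Nat.eq_zero_or_pos k with h | h
              · rw [h] at hk; omega
              · exact h
            omega
          rw [this] at hk
          omega
      · rintro (h | h)
        · rw [h]; exact ⟨by omega, Or.inr (Or.inl (dvd_zero _))⟩
        · rw [h]
          refine ⟨by omega, Or.inr (Or.inr ?_)⟩
          have : x + 1 + (n - x) = n + 1 := by omega
          rw [this]
    rw [hf, Finset.sum_const]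
    have : (0:ℕ) ≠ n - x := by omega
    rw [Finset.card_pair this]
    norm_num
  rw [Finset.sum_congr rfl h1, Finset.sum_const, Finset.card_range]
  push_cast
  simp only [nsmul_eq_mul]
  ring

/-- two-dimensional sieve bound -/
theorem sieve_two (z i H A : ℕ) (hz : 1 ≤ z) (hi : 1 ≤ i) (hP : PS z ≤ i + 1/2)
    (hH : 3 * (z:ℝ)^(12*i) * Real.exp (6*i) ≤ H) :
    ∑ x ∈ Ico A (A+H), ∑ y ∈ Ico A (A+H), ∏ p ∈ z.primesBelow,
        (1 - (if p ∣ x ∨ p ∣ y ∨ p ∣ x + y then (16/25:ℝ) else 0))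
      ≤ 6 * (H:ℝ)^2 * Real.exp (-(48/25) * PS z) := by
  have hz' : (1:ℝ) ≤ z := by exact_mod_cast hz
  have hzp : (0:ℝ) < (z:ℝ)^(12*i) := by positivity
  have hH0 : (0:ℝ) < H := by
    have : 0 < 3 * (z:ℝ)^(12*i) * Real.exp (6*i) := by positivity
    linarith
  have hPS0 : 0 ≤ PS z := Finset.sum_nonneg (fun p _ => by positivity)
  have hprime := prime_of_mem z z.primesBelow (Finset.Subset.refl _)
  set U : ℕ → ℕ × ℕ → ℝ :=
    fun p xy => if p ∣ xy.1 ∨ p ∣ xy.2 ∨ p ∣ xy.1 + xy.2 then (16/25:ℝ) else 0 with hU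
  have hU0 : ∀ p xy, 0 ≤ U p xy := by
    intro p xy; simp only [hU]; split_ifs <;> norm_num
  have hU1 : ∀ p xy, U p xy ≤ 1 := by
    intro p xy; simp only [hU]; split_ifs <;> norm_num
  set c : ℕ → ℝ := fun p => (16/25:ℝ) * (3*p-2)/(p:ℝ)^2 with hc
  have hc0 : ∀ p ∈ z.primesBelow, 0 ≤ c p := by
    intro p hp
    have : (2:ℝ) ≤ p := by exact_mod_cast (hprime p hp).two_le
    simp only [hc]
    apply div_nonneg _ (by positivity)
    apply mul_nonneg (by norm_num); linarith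
  have hc1 : ∀ p ∈ z.primesBelow, c p ≤ 1 := by
    intro p hp
    have : (2:ℝ) ≤ p := by exact_mod_cast (hprime p hp).two_le
    simp only [hc]
    rw [div_le_one (by positivity)]
    nlinarith
  have hcform : ∀ p ∈ z.primesBelow, c p = 48/25 * (1/(p:ℝ)) - 32/25 * (1/(p:ℝ)^2) := by
    intro p hp
    have : (2:ℝ) ≤ p := by exact_mod_cast (hprime p hp).two_le
    simp only [hc]
    have : (p:ℝ) ≠ 0 := by linarith
    field_simp
    ring
  have hcs : ∑ p ∈ z.primesBelow, c p = 48/25 * PS z - 32/25 * ∑ p ∈ z.primesBelow, (1:ℝ)/(p:ℝ)^2 := by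
    unfold PS
    rw [Finset.mul_sum, Finset.mul_sum, ← Finset.sum_sub_distrib]
    exact Finset.sum_congr rfl hcform
  have hsq1 := sum_sq z
  have hsq0 : 0 ≤ ∑ p ∈ z.primesBelow, (1:ℝ)/(p:ℝ)^2 :=
    Finset.sum_nonneg (fun p _ => by positivity)
  have hcle : ∑ p ∈ z.primesBelow, c p ≤ 48/25 * PS z := by rw [hcs]; linarith
  have hcge : 48/25 * PS z - 32/25 ≤ ∑ p ∈ z.primesBelow, c p := by rw [hcs]; linarith
  have hb := brun (Ico A (A+H) ×ˢ Ico A (A+H)) z.primesBelow U c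
    ((H:ℝ)^2) (3 * (z:ℝ)^(12*i)/H) (Real.exp 1) (6*i)
    (fun p _ x _ => hU0 p x) (fun p _ x _ => hU1 p x)
    hc0 (by positivity) (by positivity) (Real.one_le_exp (by norm_num)) ?_
  · rw [Finset.sum_product] at hb
    refine le_trans hb ?_
    have t1 := prod_one_sub_le_exp z.primesBelow c hc1
    have t2 := tail_bound z.primesBelow c (PS z) i hc0 hi hP hcle
    have t3 := eta_bound z.primesBelow c (PS z) (3 * (z:ℝ)^(12*i)/H) i hc0 hi hP
      hcle (by
        rw [Real.exp_neg, div_le_iff₀ hH0]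
        have he : 0 < Real.exp (6*(i:ℝ)) := Real.exp_pos _
        calc 3 * (z:ℝ)^(12*i) = (Real.exp (6*i))⁻¹ * (3 * (z:ℝ)^(12*i) * Real.exp (6*i)) := by
              field_simp
          _ ≤ (Real.exp (6*i))⁻¹ * H := mul_le_mul_of_nonneg_left hH (by positivity))
    have t4 : Real.exp (-∑ p ∈ z.primesBelow, c p) ≤ 4 * Real.exp (-(48/25) * PS z) := by
      have h1 : Real.exp (-∑ p ∈ z.primesBelow, c p) ≤ Real.exp (32/25 + -(48/25) * PS z) := by
        apply Real.exp_le_exp.mpr; linarith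
      rw [Real.exp_add] at h1
      have h2 : Real.exp (32/25) ≤ 4 := by
        have he : Real.exp 1 < 2.72 := lt_trans Real.exp_one_lt_d9 (by norm_num)
        have h4 : Real.exp (32/25) ^ 3 ≤ 4 ^ 3 := by
          rw [← Real.exp_nat_mul]
          have h5 : Real.exp (((3:ℕ):ℝ) * (32/25)) ≤ Real.exp 1 ^ 4 := by
            rw [← Real.exp_nat_mul]
            apply Real.exp_le_exp.mpr; norm_num
          have h7 : Real.exp 1 ^ 4 ≤ 2.72 ^ 4 := pow_le_pow_left₀ (Real.exp_pos 1).le he.le 4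
          exact le_trans h5 (le_trans h7 (by norm_num))
        exact le_of_pow_le_pow_left₀ (by norm_num) (by norm_num) h4
      have h8 := Real.exp_pos (-(48/25) * PS z)
      nlinarith
    calc _ ≤ (H:ℝ)^2 * (6 * Real.exp (-(48/25) * PS z)) := by
          apply mul_le_mul_of_nonneg_left _ (by positivity)
          linarith
      _ = _ := by ring
  · intro R hR hcard
    have hRp := prime_of_mem z R hR
    rw [Finset.sum_product]
    set q : ℕ := ∏ p ∈ R, p with hq
    have hq0 : 0 < q := Finset.prod_pos (fun p hp => (hRp p hp).pos)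
    have hq0' : (0:ℝ) < q := by exact_mod_cast hq0
    have hqz : (q:ℝ) ≤ (z:ℝ)^(12*i) := by
      have := prod_le_pow z R hR (12*i) (by omega) hz
      exact_mod_cast this
    have he6 : 1 ≤ Real.exp (6*(i:ℝ)) := Real.one_le_exp (by positivity)
    have hqH : (q:ℝ) ≤ H := by nlinarith [mul_pos hzp (Real.exp_pos (6*(i:ℝ)))]
    set Q : ℝ := (H:ℝ)/q with hQ
    have hQ1 : 1 ≤ Q := by rw [hQ, le_div_iff₀ hq0']; linarith
    -- inner sums
    have inner : ∀ x : ℕ,
        (Q - 1) * ∏ p ∈ R, ∑ j ∈ range p, U p (x, j) ≤ ∑ y ∈ Ico A (A+H), ∏ p ∈ R, U p (x, y) ∧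
        ∑ y ∈ Ico A (A+H), ∏ p ∈ R, U p (x, y) ≤ (Q + 1) * ∏ p ∈ R, ∑ j ∈ range p, U p (x, j) := by
      intro x
      apply sum_Ico_prod_bounds R hRp (fun p y => U p (x, y))
      · intro p hp k
        simp only [hU]
        have h1 : p ∣ k % p ↔ p ∣ k := Nat.dvd_mod_iff (dvd_refl p)
        have h2 : p ∣ x + k % p ↔ p ∣ x + k := by
          rw [Nat.dvd_iff_mod_eq_zero, Nat.dvd_iff_mod_eq_zero, Nat.add_mod_mod]
        simp only [h1, h2]
      · intro p _ k
        exact hU0 _ _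
    have outer := sum_Ico_prod_bounds R hRp (fun p x => ∑ j ∈ range p, U p (x, j))
      (by
        intro p hp k
        apply Finset.sum_congr rfl
        intro j _
        simp only [hU]
        have h1 : p ∣ k % p ↔ p ∣ k := Nat.dvd_mod_iff (dvd_refl p)
        have h2 : p ∣ k % p + j ↔ p ∣ k + j := by
          rw [Nat.dvd_iff_mod_eq_zero, Nat.dvd_iff_mod_eq_zero, Nat.mod_add_mod]
        simp only [h1, h2])
      (by
        intro p _ k
        exact Finset.sum_nonneg (fun j _ => hU0 _ _)) A H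
    rw [← hq, ← hQ] at outer
    set W : ℝ := ∏ p ∈ R, ∑ x ∈ range p, ∑ j ∈ range p, U p (x, j) with hW
    have hW0 : 0 ≤ W := Finset.prod_nonneg (fun p _ => Finset.sum_nonneg
      (fun x _ => Finset.sum_nonneg (fun j _ => hU0 _ _)))
    have up : ∑ x ∈ Ico A (A+H), ∑ y ∈ Ico A (A+H), ∏ p ∈ R, U p (x, y) ≤ (Q+1)^2 * W := by
      calc ∑ x ∈ Ico A (A+H), ∑ y ∈ Ico A (A+H), ∏ p ∈ R, U p (x, y)
          ≤ ∑ x ∈ Ico A (A+H), (Q + 1) * ∏ p ∈ R, ∑ j ∈ range p, U p (x, j) :=
            Finset.sum_le_sum (fun x _ => (inner x).2)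
        _ = (Q+1) * ∑ x ∈ Ico A (A+H), ∏ p ∈ R, ∑ j ∈ range p, U p (x, j) := by
            rw [Finset.mul_sum]
        _ ≤ (Q+1) * ((Q+1) * W) := mul_le_mul_of_nonneg_left outer.2 (by linarith)
        _ = _ := by ring
    have low : (Q-1)^2 * W ≤ ∑ x ∈ Ico A (A+H), ∑ y ∈ Ico A (A+H), ∏ p ∈ R, U p (x, y) := by
      calc (Q-1)^2 * W = (Q-1) * ((Q-1) * W) := by ring
        _ ≤ (Q-1) * ∑ x ∈ Ico A (A+H), ∏ p ∈ R, ∑ j ∈ range p, U p (x, j) :=
            mul_le_mul_of_nonneg_left outer.1 (by linarith)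
        _ = ∑ x ∈ Ico A (A+H), (Q - 1) * ∏ p ∈ R, ∑ j ∈ range p, U p (x, j) := by
            rw [Finset.mul_sum]
        _ ≤ _ := Finset.sum_le_sum (fun x _ => (inner x).1)
    have hWc : (H:ℝ)^2 * ∏ p ∈ R, c p = Q^2 * W := by
      have h1 : W = ∏ p ∈ R, (16/25:ℝ) * (3 * p - 2) := by
        rw [hW]
        apply Finset.prod_congr rfl
        intro p hp
        exact pair_count p (hRp p hp)
      have h2 : ∏ p ∈ R, c p = W / (q:ℝ)^2 := by
        rw [h1, hc, hq]
        simp only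
        rw [Finset.prod_div_distrib, Finset.prod_pow]
        push_cast
        rfl
      rw [h2, hQ]; ring
    rw [hWc]
    have heta : (2*Q+1) * W ≤ 3 * (z:ℝ)^(12*i)/H * (Q^2 * W) := by
      have e : 3 * (z:ℝ)^(12*i)/H * (Q^2 * W) = 3 * ((z:ℝ)^(12*i) / q) * Q * W := by
        rw [hQ]; field_simp
      rw [e]
      have h1 : 1 ≤ (z:ℝ)^(12*i) / q := by rw [le_div_iff₀ hq0']; linarith
      have h2 : 2*Q+1 ≤ 3 * ((z:ℝ)^(12*i) / q) * Q := by nlinarith
      exact mul_le_mul_of_nonneg_right h2 hW0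
    rw [abs_le]
    constructor
    · nlinarith
    · nlinarith

end Pool.Agent.UnitFrac
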