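import Mathlib
import Pool.Agent.UnitFrac.Sieve
import Pool.Agent.UnitFrac.Chernoff

set_option autoImplicit false

/-!
Typical numbers, and the count of the solutions of `1/a = 1/b + 1/c` in typical numbers.
-/

namespace Pool.Agent.UnitFrac

open Finset

open Classical in
/-- the `i`-th level: the sum of `1/p` over the primes below `lev i` is about `i` -/
noncomputable def lev (i : ℕ) : ℕ := if h : 1 ≤ i then (exists_level i h).choose else 1

lemma lev_spec (i : ℕ) (hi : 1 ≤ i) : 1 ≤ lev i ∧ (i:ℝ) ≤ PS (lev i) ∧ PS (lev i) ≤ i + 1/2 ∧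
    Real.log (lev i) ≤ Real.exp (i + 3/2) := by
  unfold lev
  rw [dif_pos hi]
  exact (exists_level i hi).choose_spec

/-- typical numbers -/
def Typ (i0 I n : ℕ) : Prop :=
  ∀ i, i0 ≤ i → i ≤ I → (Om (lev i).primesBelow n : ℝ) ≤ 21/20 * PS (lev i)

open Classical in
lemma nontyp_count : ∃ i0 : ℕ, 1 ≤ i0 ∧ ∀ I N : ℕ,
    (((Icc 1 N).filter (fun n => ¬ Typ i0 I n)).card : ℝ) ≤ N/1000 := by
  set r : ℝ := Real.exp (-(1/820)) with hr
  have hr0 : 0 < r := Real.exp_pos _
  have hr1 : r < 1 := by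
    rw [hr, Real.exp_lt_one_iff]; norm_num
  obtain ⟨n, hn⟩ := exists_pow_lt_of_lt_one (show (0:ℝ) < (1-r)/2000 by linarith) hr1
  refine ⟨n+1, by omega, ?_⟩
  intro I N
  have hsub : (Icc 1 N).filter (fun n' => ¬ Typ (n+1) I n') ⊆
      (Icc (n+1) I).biUnion (fun i => (Icc 1 N).filter
        (fun m => 21/20 * PS (lev i) < (Om (lev i).primesBelow m : ℝ))) := by
    intro m hm
    rw [Finset.mem_filter] at hm
    obtain ⟨hm1, hm2⟩ := hm
    unfold Typ at hm2
    push Not at hm2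
    obtain ⟨i, hi1, hi2, hi3⟩ := hm2
    rw [Finset.mem_biUnion]
    exact ⟨i, Finset.mem_Icc.mpr ⟨hi1, hi2⟩, Finset.mem_filter.mpr ⟨hm1, hi3⟩⟩
  have h1 : (((Icc 1 N).filter (fun n' => ¬ Typ (n+1) I n')).card : ℝ)
      ≤ ∑ i ∈ Icc (n+1) I, 2 * N * r^i := by
    calc (((Icc 1 N).filter (fun n' => ¬ Typ (n+1) I n')).card : ℝ)
        ≤ (((Icc (n+1) I).biUnion (fun i => (Icc 1 N).filter
        (fun m => 21/20 * PS (lev i) < (Om (lev i).primesBelow m : ℝ)))).card : ℝ) := by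
          exact_mod_cast Finset.card_le_card hsub
      _ ≤ ∑ i ∈ Icc (n+1) I, (((Icc 1 N).filter
        (fun m => 21/20 * PS (lev i) < (Om (lev i).primesBelow m : ℝ))).card : ℝ) := by
          exact_mod_cast Finset.card_biUnion_le
      _ ≤ ∑ i ∈ Icc (n+1) I, 2 * N * r^i := by
          apply Finset.sum_le_sum
          intro i hi
          rw [Finset.mem_Icc] at hi
          refine le_trans (chernoff (lev i) N) ?_
          apply mul_le_mul_of_nonneg_left _ (by positivity)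
          rw [hr, ← Real.exp_nat_mul]
          apply Real.exp_le_exp.mpr
          have := (lev_spec i (by omega)).2.1
          linarith
  refine le_trans h1 ?_
  rw [← Finset.mul_sum]
  have h2 : ∑ i ∈ Icc (n+1) I, r^i ≤ r^(n+1)/(1-r) := by
    have : Icc (n+1) I = Ico (n+1) (I+1) := by
      ext x; simp only [Finset.mem_Icc, Finset.mem_Ico]; omega
    rw [this]
    exact geom_sum_Ico_le_of_lt_one hr0.le hr1
  have h3 : r^(n+1)/(1-r) ≤ 1/2000 := by
    rw [div_le_iff₀ (by linarith)]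
    have : r^(n+1) ≤ r^n := pow_le_pow_of_le_one hr0.le hr1.le (by omega)
    linarith
  have hN : (0:ℝ) ≤ N := Nat.cast_nonneg N
  nlinarith

/-- sieve weight of `g` -/
noncomputable def wA (z g : ℕ) : ℝ :=
  ∏ p ∈ z.primesBelow, (1 - (if p ∣ g then (98/125:ℝ) else 0))

/-- sieve weight of `(x,y)` -/
noncomputable def wB (z x y : ℕ) : ℝ :=
  ∏ p ∈ z.primesBelow, (1 - (if p ∣ x ∨ p ∣ y ∨ p ∣ x + y then (16/25:ℝ) else 0))

lemma wA_nonneg (z g : ℕ) : 0 ≤ wA z g := by
  apply Finset.prod_nonneg; intro p _; split_ifs <;> norm_num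

lemma wA_le_one (z g : ℕ) : wA z g ≤ 1 := by
  apply Finset.prod_le_one
  · intro p _; split_ifs <;> norm_num
  · intro p _; split_ifs <;> norm_num

lemma wB_nonneg (z x y : ℕ) : 0 ≤ wB z x y := by
  apply Finset.prod_nonneg; intro p _; split_ifs <;> norm_num

lemma weight_le (z g x y : ℕ) (hg : 1 ≤ g) (hx : 1 ≤ x) (hy : 1 ≤ y) :
    (3/5:ℝ)^(Om z.primesBelow (g*x*y) + Om z.primesBelow (g*x*(x+y)) + Om z.primesBelow (g*y*(x+y)))
      ≤ wA z g * wB z x y := by
  have hg0 : g ≠ 0 := by omega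
  have hx0 : x ≠ 0 := by omega
  have hy0 : y ≠ 0 := by omega
  have hs0 : x + y ≠ 0 := by omega
  rw [Om_mul _ _ _ (mul_ne_zero hg0 hx0) hy0, Om_mul _ _ _ (mul_ne_zero hg0 hx0) hs0,
    Om_mul _ _ _ (mul_ne_zero hg0 hy0) hs0, Om_mul _ _ _ hg0 hx0, Om_mul _ _ _ hg0 hy0]
  set S := z.primesBelow with hS
  have e : Om S g + Om S x + Om S y + (Om S g + Om S x + Om S (x+y))
      + (Om S g + Om S y + Om S (x+y)) = ∑ p ∈ S, (3 * g.factorization p
        + 2 * (x.factorization p + y.factorization p + (x+y).factorization p)) := by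
    unfold Om
    rw [Finset.sum_add_distrib, ← Finset.mul_sum, ← Finset.mul_sum, Finset.sum_add_distrib,
      Finset.sum_add_distrib]
    ring
  rw [e, ← Finset.prod_pow_eq_pow_sum]
  unfold wA wB
  rw [← Finset.prod_mul_distrib]
  apply Finset.prod_le_prod
  · intro p _; positivity
  · intro p hp
    have hpp : p.Prime := Nat.prime_of_mem_primesBelow hp
    rw [pow_add, pow_mul, pow_mul]
    apply mul_le_mul
    · split_ifs with h
      · have h1 : 1 ≤ g.factorization p := hpp.factorization_pos_of_dvd hg0 h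
        calc ((3/5:ℝ)^3)^(g.factorization p) ≤ ((3/5:ℝ)^3)^1 :=
              pow_le_pow_of_le_one (by norm_num) (by norm_num) h1
          _ ≤ _ := by norm_num
      · have : ((3/5:ℝ)^3)^(g.factorization p) ≤ 1 := pow_le_one₀ (by norm_num) (by norm_num)
        linarith
    · split_ifs with h
      · have h1 : 1 ≤ x.factorization p + y.factorization p + (x+y).factorization p := by
          rcases h with h | h | h
          · have := hpp.factorization_pos_of_dvd hx0 h; omega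
          · have := hpp.factorization_pos_of_dvd hy0 h; omega
          · have := hpp.factorization_pos_of_dvd hs0 h; omega
        calc ((3/5:ℝ)^2)^(x.factorization p + y.factorization p + (x+y).factorization p)
            ≤ ((3/5:ℝ)^2)^1 := pow_le_pow_of_le_one (by norm_num) (by norm_num) h1
          _ ≤ _ := by norm_num
      · have : ((3/5:ℝ)^2)^(x.factorization p + y.factorization p + (x+y).factorization p) ≤ 1 :=
          pow_le_one₀ (by norm_num) (by norm_num)
        linarith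
    · positivity
    · split_ifs <;> norm_num

open Classical in
/-- the edges at scale `j` with all vertices typical -/
noncomputable def edges (i0 I j G : ℕ) : Finset (ℕ × ℕ × ℕ) :=
  ((Icc 1 G) ×ˢ ((Ico (2^j) (2^j+3*2^j)) ×ˢ (Ico (2^j) (2^j+3*2^j)))).filter (fun t =>
    Typ i0 I (t.1 * t.2.1 * t.2.2) ∧ Typ i0 I (t.1 * t.2.1 * (t.2.1 + t.2.2)) ∧
      Typ i0 I (t.1 * t.2.2 * (t.2.1 + t.2.2)))

lemma log_five_thirds : Real.log (5/3) ≤ 64/125 := by
  rw [Real.log_le_iff_le_exp (by norm_num)]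
  have h1 : ((5:ℝ)/3)^125 ≤ (Real.exp (64/125))^125 := by
    rw [← Real.exp_nat_mul]
    have e : ((125:ℕ):ℝ) * (64/125) = ((64:ℕ):ℝ) * 1 := by norm_num
    rw [e, Real.exp_nat_mul]
    calc ((5:ℝ)/3)^125 ≤ (2.7182818283:ℝ)^64 := by norm_num
      _ ≤ Real.exp 1 ^ 64 := pow_le_pow_left₀ (by norm_num) Real.exp_one_gt_d9.le 64
  exact le_of_pow_le_pow_left₀ (by norm_num) (Real.exp_pos _).le h1

open Classical in
lemma edges_card_le (i0 I j G i : ℕ) (hi0 : i0 ≤ i) (hiI : i ≤ I) :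
    ((edges i0 I j G).card : ℝ) ≤ Real.exp (1008/625 * PS (lev i)) *
      ((∑ g ∈ Icc 1 G, wA (lev i) g) *
        ∑ x ∈ Ico (2^j) (2^j+3*2^j), ∑ y ∈ Ico (2^j) (2^j+3*2^j), wB (lev i) x y) := by
  set z := lev i with hz
  have hPS0 : 0 ≤ PS z := Finset.sum_nonneg (fun p _ => by positivity)
  have h1 : ((edges i0 I j G).card : ℝ) ≤ ∑ t ∈ edges i0 I j G,
      Real.exp (1008/625 * PS z) * (wA z t.1 * wB z t.2.1 t.2.2) := by
    have e : ((edges i0 I j G).card : ℝ) = ∑ _t ∈ edges i0 I j G, (1:ℝ) := by simp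
    rw [e]
    apply Finset.sum_le_sum
    intro t ht
    unfold edges at ht
    rw [Finset.mem_filter, Finset.mem_product, Finset.mem_product, Finset.mem_Icc,
      Finset.mem_Ico, Finset.mem_Ico] at ht
    obtain ⟨⟨⟨hg1, _⟩, ⟨hx1, _⟩, ⟨hy1, _⟩⟩, h1, h2, h3⟩ := ht
    have hpow : 0 < 2^j := by positivity
    have hw := weight_le z t.1 t.2.1 t.2.2 hg1 (by omega) (by omega)
    have h1' := h1 i hi0 hiI
    have h2' := h2 i hi0 hiI
    have h3' := h3 i hi0 hiI
    rw [← hz] at h1' h2' h3'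
    set n := Om z.primesBelow (t.1 * t.2.1 * t.2.2) +
      Om z.primesBelow (t.1 * t.2.1 * (t.2.1 + t.2.2)) +
      Om z.primesBelow (t.1 * t.2.2 * (t.2.1 + t.2.2)) with hn
    have hnle : (n:ℝ) ≤ 63/20 * PS z := by
      rw [hn]; push_cast; linarith
    have hpe : (3/5:ℝ)^n = Real.exp (-(Real.log (5/3) * n)) := by
      rw [Real.exp_neg, Real.exp_mul, Real.exp_log (by norm_num), Real.rpow_natCast, ← inv_pow]
      norm_num
    have hlog := log_five_thirds
    have hlog0 : 0 ≤ Real.log (5/3) := Real.log_nonneg (by norm_num)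
    have hbig : 1 ≤ Real.exp (1008/625 * PS z) * (3/5:ℝ)^n := by
      rw [hpe, ← Real.exp_add]
      apply Real.one_le_exp
      have : Real.log (5/3) * n ≤ 64/125 * (63/20 * PS z) := by
        apply mul_le_mul hlog hnle (Nat.cast_nonneg n) (by norm_num)
      linarith
    calc (1:ℝ) ≤ Real.exp (1008/625 * PS z) * (3/5:ℝ)^n := hbig
      _ ≤ _ := mul_le_mul_of_nonneg_left hw (Real.exp_pos _).le
  refine le_trans h1 ?_
  rw [← Finset.mul_sum]
  apply mul_le_mul_of_nonneg_left _ (Real.exp_pos _).le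
  calc ∑ t ∈ edges i0 I j G, wA z t.1 * wB z t.2.1 t.2.2
      ≤ ∑ t ∈ (Icc 1 G) ×ˢ ((Ico (2^j) (2^j+3*2^j)) ×ˢ (Ico (2^j) (2^j+3*2^j))),
          wA z t.1 * wB z t.2.1 t.2.2 := by
        apply Finset.sum_le_sum_of_subset_of_nonneg
        · exact Finset.filter_subset _ _
        · intro t _ _; exact mul_nonneg (wA_nonneg _ _) (wB_nonneg _ _ _)
    _ = _ := by
        rw [Finset.sum_product, Finset.sum_mul]
        apply Finset.sum_congr rfl
        intro g _
        rw [Finset.sum_product, Finset.mul_sum]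
        apply Finset.sum_congr rfl
        intro x _
        rw [Finset.mul_sum]

/-- main bound when both sides are long -/
lemma edges_bound_one (i0 I j G i : ℕ) (hi1 : 1 ≤ i) (hi0 : i0 ≤ i) (hiI : i ≤ I)
    (hG : 3 * (lev i:ℝ)^(12*i) * Real.exp (6*i) ≤ G)
    (hj : 3 * (lev i:ℝ)^(12*i) * Real.exp (6*i) ≤ 2^j) :
    ((edges i0 I j G).card : ℝ) ≤ 162 * G * 4^j * Real.exp (-(682/625) * PS (lev i)) := by
  obtain ⟨hz1, _, hP2, _⟩ := lev_spec i hi1
  set z := lev i with hz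
  have h1 := edges_card_le i0 I j G i hi0 hiI
  rw [← hz] at h1
  have h2 := sieve_one z i G hz1 hi1 hP2 hG
  have h3 := sieve_two z i (3*2^j) (2^j) hz1 hi1 hP2 (by
    push_cast
    have : (0:ℝ) < 2^j := by positivity
    linarith)
  have e1 : ∑ g ∈ Icc 1 G, wA z g ≤ 3 * G * Real.exp (-(98/125) * PS z) := by
    have : Icc 1 G = Ico 1 (1+G) := by
      ext x; simp only [Finset.mem_Icc, Finset.mem_Ico]; omega
    rw [this]; exact h2
  have e2 : ∑ x ∈ Ico (2^j) (2^j+3*2^j), ∑ y ∈ Ico (2^j) (2^j+3*2^j), wB z x y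
      ≤ 54 * 4^j * Real.exp (-(48/25) * PS z) := by
    refine le_trans h3 (le_of_eq ?_)
    push_cast
    have : (4:ℝ)^j = (2^j)^2 := by rw [← pow_mul, mul_comm, pow_mul]; norm_num
    rw [this]; ring
  have hB0 : 0 ≤ ∑ x ∈ Ico (2^j) (2^j+3*2^j), ∑ y ∈ Ico (2^j) (2^j+3*2^j), wB z x y :=
    Finset.sum_nonneg (fun x _ => Finset.sum_nonneg (fun y _ => wB_nonneg _ _ _))
  refine le_trans h1 ?_
  calc Real.exp (1008/625 * PS z) * ((∑ g ∈ Icc 1 G, wA z g) *
        ∑ x ∈ Ico (2^j) (2^j+3*2^j), ∑ y ∈ Ico (2^j) (2^j+3*2^j), wB z x y)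
      ≤ Real.exp (1008/625 * PS z) * ((3 * G * Real.exp (-(98/125) * PS z)) *
        (54 * 4^j * Real.exp (-(48/25) * PS z))) := by
        apply mul_le_mul_of_nonneg_left _ (Real.exp_pos _).le
        apply mul_le_mul e1 e2 hB0 (by positivity)
    _ = 162 * G * 4^j * (Real.exp (1008/625 * PS z) * Real.exp (-(98/125) * PS z) *
          Real.exp (-(48/25) * PS z)) := by ring
    _ = 162 * G * 4^j * Real.exp (-(682/625) * PS z) := by
        rw [← Real.exp_add, ← Real.exp_add]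
        congr 2
        ring

/-- weaker bound when only the `x`-side is long -/
lemma edges_bound_two (i0 I j G i : ℕ) (hi1 : 1 ≤ i) (hi0 : i0 ≤ i) (hiI : i ≤ I)
    (hj : 3 * (lev i:ℝ)^(12*i) * Real.exp (6*i) ≤ 2^j) :
    ((edges i0 I j G).card : ℝ) ≤ 54 * G * 4^j * Real.exp (-(192/625) * PS (lev i)) := by
  obtain ⟨hz1, _, hP2, _⟩ := lev_spec i hi1
  set z := lev i with hz
  have h1 := edges_card_le i0 I j G i hi0 hiI
  rw [← hz] at h1
  have h3 := sieve_two z i (3*2^j) (2^j) hz1 hi1 hP2 (by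
    push_cast
    have : (0:ℝ) < 2^j := by positivity
    linarith)
  have e1 : ∑ g ∈ Icc 1 G, wA z g ≤ G := by
    calc ∑ g ∈ Icc 1 G, wA z g ≤ ∑ _g ∈ Icc 1 G, (1:ℝ) :=
          Finset.sum_le_sum (fun g _ => wA_le_one z g)
      _ = G := by simp
  have e2 : ∑ x ∈ Ico (2^j) (2^j+3*2^j), ∑ y ∈ Ico (2^j) (2^j+3*2^j), wB z x y
      ≤ 54 * 4^j * Real.exp (-(48/25) * PS z) := by
    refine le_trans h3 (le_of_eq ?_)
    push_cast
    have : (4:ℝ)^j = (2^j)^2 := by rw [← pow_mul, mul_comm, pow_mul]; norm_num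
    rw [this]; ring
  have hB0 : 0 ≤ ∑ x ∈ Ico (2^j) (2^j+3*2^j), ∑ y ∈ Ico (2^j) (2^j+3*2^j), wB z x y :=
    Finset.sum_nonneg (fun x _ => Finset.sum_nonneg (fun y _ => wB_nonneg _ _ _))
  refine le_trans h1 ?_
  calc Real.exp (1008/625 * PS z) * ((∑ g ∈ Icc 1 G, wA z g) *
        ∑ x ∈ Ico (2^j) (2^j+3*2^j), ∑ y ∈ Ico (2^j) (2^j+3*2^j), wB z x y)
      ≤ Real.exp (1008/625 * PS z) * ((G:ℝ) *
        (54 * 4^j * Real.exp (-(48/25) * PS z))) := by
        apply mul_le_mul_of_nonneg_left _ (Real.exp_pos _).le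
        apply mul_le_mul e1 e2 hB0 (by positivity)
    _ = 54 * G * 4^j * (Real.exp (1008/625 * PS z) * Real.exp (-(48/25) * PS z)) := by ring
    _ = 54 * G * 4^j * Real.exp (-(192/625) * PS z) := by
        rw [← Real.exp_add]
        congr 2
        ring

end Pool.Agent.UnitFrac
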