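import Mathlib
import Pool.Agent.UnitFrac.Edges

set_option autoImplicit false

/-!
Summation of the edge counts over all scales.
-/

namespace Pool.Agent.UnitFrac

open Finset Filter Asymptotics

lemma eventually_small : ∀ᶠ x : ℝ in atTop, 2 + 66 * (Real.log x * x^(19/20:ℝ)) ≤ x * Real.log 2 := by
  have h1 := isLittleO_log_rpow_atTop (show (0:ℝ) < 1/20 by norm_num)
  have h2 := h1.bound (show (0:ℝ) < 1/300 by norm_num)
  filter_upwards [h2, eventually_ge_atTop (6:ℝ)] with x hx hx6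
  have hx0 : 0 < x := by linarith
  rw [Real.norm_eq_abs, Real.norm_eq_abs, abs_of_nonneg (Real.log_nonneg (by linarith)),
    abs_of_nonneg (Real.rpow_nonneg hx0.le _)] at hx
  have h3 : x^(1/20:ℝ) * x^(19/20:ℝ) = x := by
    rw [← Real.rpow_add hx0]; norm_num
  have h4 : 0 ≤ x^(19/20:ℝ) := Real.rpow_nonneg hx0.le _
  have h5 : Real.log x * x^(19/20:ℝ) ≤ 1/300 * x := by
    calc Real.log x * x^(19/20:ℝ) ≤ (1/300 * x^(1/20:ℝ)) * x^(19/20:ℝ) :=
          mul_le_mul_of_nonneg_right hx h4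
      _ = 1/300 * (x^(1/20:ℝ) * x^(19/20:ℝ)) := by ring
      _ = 1/300 * x := by rw [h3]
  have h6 := Real.log_two_gt_d9
  nlinarith

lemma scale_exists (i0 : ℕ) : ∃ m1 : ℕ, 1 ≤ m1 ∧ ∀ m, m1 ≤ m → ∃ i, 1 ≤ i ∧ i0 ≤ i ∧ i ≤ m ∧
    3 * (lev i:ℝ)^(12*i) * Real.exp (6*i) ≤ 2^m ∧
    Real.exp (-(682/625) * PS (lev i)) ≤ 4 * (m:ℝ)^(-(103/100):ℝ) := by
  obtain ⟨X, hX⟩ := eventually_atTop.mp eventually_small
  refine ⟨⌈max (max X 1) (Real.exp ((i0+1)/(19/20)))⌉₊ + 1, by omega, ?_⟩
  intro m hm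
  have hm' : max (max X 1) (Real.exp ((i0+1)/(19/20))) ≤ m := by
    have h1 := Nat.le_ceil (max (max X 1) (Real.exp ((i0+1)/(19/20))))
    have h2 : ((⌈max (max X 1) (Real.exp ((i0+1)/(19/20)))⌉₊ : ℕ) : ℝ) ≤ m := by
      exact_mod_cast (by omega : ⌈max (max X 1) (Real.exp ((i0+1)/(19/20)))⌉₊ ≤ m)
    linarith
  have hmX : X ≤ m := le_trans (le_trans (le_max_left _ _) (le_max_left _ _)) hm'
  have hm1 : (1:ℝ) ≤ m := le_trans (le_trans (le_max_right _ _) (le_max_left _ _)) hm'
  have hme : Real.exp ((i0+1)/(19/20)) ≤ m := le_trans (le_max_right _ _) hm'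
  have hm0 : (0:ℝ) < m := by linarith
  have hlogm : ((i0:ℝ)+1)/(19/20) ≤ Real.log m := by
    rw [Real.le_log_iff_exp_le hm0]; exact hme
  have hlog0 : 0 ≤ Real.log m := Real.log_nonneg hm1
  set i : ℕ := ⌊(19/20) * Real.log m⌋₊ with hi
  have hi_le : (i:ℝ) ≤ (19/20) * Real.log m := Nat.floor_le (by positivity)
  have hi_gt : (19/20) * Real.log m < i + 1 := Nat.lt_floor_add_one _
  have hi_ge : i0 + 1 ≤ i := by
    rw [hi]
    apply Nat.le_floor
    push_cast
    rw [div_le_iff₀ (by norm_num)] at hlogm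
    linarith
  refine ⟨i, by omega, by omega, ?_, ?_, ?_⟩
  · have h1 : Real.log m ≤ m := by
      have := Real.log_le_sub_one_of_pos hm0; linarith
    have h2 : (i:ℝ) ≤ m := by linarith
    exact_mod_cast h2
  · obtain ⟨hz1, _, _, hz4⟩ := lev_spec i (by omega)
    have hz0 : (0:ℝ) < lev i := by exact_mod_cast hz1
    have hsm := hX m hmX
    rw [← Real.log_le_log_iff (by positivity) (by positivity), Real.log_mul (by positivity)
      (by positivity), Real.log_mul (by norm_num) (by positivity), Real.log_exp, Real.log_pow,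
      Real.log_pow]
    refine le_trans ?_ hsm
    have hlog3 : Real.log 3 ≤ 2 := by
      have := Real.log_le_sub_one_of_pos (show (0:ℝ) < 3 by norm_num)
      linarith
    have he1 : Real.exp (i + 3/2) ≤ 9/2 * (m:ℝ)^(19/20:ℝ) := by
      rw [Real.exp_add]
      have h1 : Real.exp (3/2) ≤ 9/2 := by
        have he : Real.exp 1 < 2.72 := lt_trans Real.exp_one_lt_d9 (by norm_num)
        have h8 : Real.exp (3/2) ^ 2 ≤ (9/2:ℝ) ^ 2 := by
          rw [← Real.exp_nat_mul]
          have h9 : Real.exp (((2:ℕ):ℝ) * (3/2)) ≤ Real.exp 1 ^ 3 := by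
            rw [← Real.exp_nat_mul]
            apply Real.exp_le_exp.mpr; norm_num
          have h10 : Real.exp 1 ^ 3 ≤ 2.72^3 := pow_le_pow_left₀ (Real.exp_pos 1).le he.le 3
          exact le_trans h9 (le_trans h10 (by norm_num))
        exact le_of_pow_le_pow_left₀ (by norm_num) (by norm_num) h8
      have h2 : Real.exp i ≤ (m:ℝ)^(19/20:ℝ) := by
        rw [Real.rpow_def_of_pos hm0]
        apply Real.exp_le_exp.mpr
        linarith
      calc Real.exp i * Real.exp (3/2) ≤ (m:ℝ)^(19/20:ℝ) * (9/2) :=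
            mul_le_mul h2 h1 (Real.exp_pos _).le (by positivity)
        _ = _ := by ring
    have hm19 : 1 ≤ (m:ℝ)^(19/20:ℝ) := Real.one_le_rpow hm1 (by norm_num)
    have h12 : ((12*i : ℕ):ℝ) * Real.log (lev i) ≤ 12 * ((19/20) * Real.log m) * (9/2 * (m:ℝ)^(19/20:ℝ)) := by
      push_cast
      have hlz : 0 ≤ Real.log (lev i) := Real.log_nonneg (by exact_mod_cast hz1)
      apply mul_le_mul
      · linarith
      · exact le_trans hz4 he1
      · exact hlz
      · positivity
    have h6 : 6 * (i:ℝ) ≤ 6 * (19/20) * (Real.log m * (m:ℝ)^(19/20:ℝ)) := by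
      have : Real.log m ≤ Real.log m * (m:ℝ)^(19/20:ℝ) := by nlinarith
      nlinarith
    have hpos : 0 ≤ Real.log m * (m:ℝ)^(19/20:ℝ) := by positivity
    nlinarith
  · obtain ⟨_, hz2, _, _⟩ := lev_spec i (by omega)
    have h1 : -(682/625) * PS (lev i) ≤ 682/625 + (-(103/100)) * Real.log m := by
      nlinarith
    calc Real.exp (-(682/625) * PS (lev i)) ≤ Real.exp (682/625 + (-(103/100)) * Real.log m) :=
          Real.exp_le_exp.mpr h1
      _ = Real.exp (682/625) * (m:ℝ)^(-(103/100):ℝ) := by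
          rw [Real.exp_add, Real.rpow_def_of_pos hm0]
          congr 2
          ring
      _ ≤ 4 * (m:ℝ)^(-(103/100):ℝ) := by
          apply mul_le_mul_of_nonneg_right _ (by positivity)
          have he : Real.exp 1 < 2.72 := lt_trans Real.exp_one_lt_d9 (by norm_num)
          have h8 : Real.exp (682/625) ^ 10 ≤ (4:ℝ) ^ 10 := by
            rw [← Real.exp_nat_mul]
            have h9 : Real.exp (((10:ℕ):ℝ) * (682/625)) ≤ Real.exp 1 ^ 11 := by
              rw [← Real.exp_nat_mul]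
              apply Real.exp_le_exp.mpr; norm_num
            have h10 : Real.exp 1 ^ 11 ≤ 2.72^11 :=
              pow_le_pow_left₀ (Real.exp_pos 1).le he.le 11
            exact le_trans h9 (le_trans h10 (by norm_num))
          exact le_of_pow_le_pow_left₀ (by norm_num) (by norm_num) h8

/-- the total number of typical edges at scales `j ≥ m0` is small -/
theorem edges_total (i0 : ℕ) : ∃ m0 : ℕ, 1 ≤ m0 ∧ ∀ K0 : ℕ, ∃ K, K0 ≤ K ∧ ∃ I : ℕ,
    ∑ j ∈ Ico m0 (K+1), ((edges i0 I j (4^(K-j))).card : ℝ) ≤ 4^K / 1000 := by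
  obtain ⟨m1, hm1, hsc⟩ := scale_exists i0
  set f : ℕ → ℝ := fun m => (m:ℝ)^(-(103/100):ℝ) with hf
  have hf0 : ∀ m, 0 ≤ f m := fun m => Real.rpow_nonneg (Nat.cast_nonneg m) _
  have hsum : Summable f := Real.summable_nat_rpow.mpr (by norm_num)
  obtain ⟨s, hs⟩ := summable_iff_vanishing_norm.mp hsum (1/(4*162*4*1000)) (by norm_num)
  set m0 : ℕ := max m1 (s.sup id + 1) with hm0
  have htail : ∀ K, ∑ j ∈ Ico m0 (K+1), f j ≤ 1/(4*162*4*1000) := by
    intro K
    have hdisj : Disjoint (Ico m0 (K+1)) s := by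
      rw [Finset.disjoint_left]
      intro a ha hs'
      rw [Finset.mem_Ico] at ha
      have h1 : a ≤ s.sup id := Finset.le_sup (f := id) hs'
      have h2 : s.sup id + 1 ≤ m0 := le_max_right _ _
      omega
    have h := hs _ hdisj
    rw [Real.norm_eq_abs, abs_of_nonneg (Finset.sum_nonneg (fun j _ => hf0 j))] at h
    exact h.le
  have hm0m1 : m1 ≤ m0 := le_max_left _ _
  refine ⟨m0, by omega, ?_⟩
  -- choose i2
  obtain ⟨n2, hn2⟩ := exists_pow_lt_of_lt_one (show (0:ℝ) < 1/(54*2000*(m0+1)) by positivity)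
    (show Real.exp (-(192/625)) < 1 by rw [Real.exp_lt_one_iff]; norm_num)
  set i2 : ℕ := max (max i0 1) n2 with hi2
  intro K0
  obtain ⟨K1, hK1⟩ := exists_nat_gt (3 * (lev i2:ℝ)^(12*i2) * Real.exp (6*i2))
  set K : ℕ := K0 + 2*m0 + K1 with hK
  refine ⟨K, by omega, max K i2, ?_⟩
  set I := max K i2 with hI
  have hsplit : ∑ j ∈ Ico m0 (K+1), ((edges i0 I j (4^(K-j))).card : ℝ)
      = ∑ j ∈ Ico m0 (K+1-m0), ((edges i0 I j (4^(K-j))).card : ℝ)
        + ∑ j ∈ Ico (K+1-m0) (K+1), ((edges i0 I j (4^(K-j))).card : ℝ) := by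
    rw [Finset.sum_Ico_consecutive _ (by omega) (by omega)]
  rw [hsplit]
  -- first part
  have hfirst : ∑ j ∈ Ico m0 (K+1-m0), ((edges i0 I j (4^(K-j))).card : ℝ) ≤ 4^K/2000 := by
    have hterm : ∀ j ∈ Ico m0 (K+1-m0), ((edges i0 I j (4^(K-j))).card : ℝ)
        ≤ 162 * 4 * 4^K * (f j + f (K-j)) := by
      intro j hj
      rw [Finset.mem_Ico] at hj
      have hjK : j ≤ K := by omega
      set m := min j (K-j) with hm
      have hmm : m1 ≤ m := by omega
      obtain ⟨i, hi1, hi0, him, hc, he⟩ := hsc m hmm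
      have hmj : m ≤ j := min_le_left _ _
      have hmK : m ≤ K - j := min_le_right _ _
      have h2m : (2:ℝ)^m ≤ 2^j := pow_le_pow_right₀ (by norm_num) hmj
      have h2K : (2:ℝ)^m ≤ ((4^(K-j) : ℕ):ℝ) := by
        push_cast
        calc (2:ℝ)^m ≤ 4^m := pow_le_pow_left₀ (by norm_num) (by norm_num) m
          _ ≤ 4^(K-j) := pow_le_pow_right₀ (by norm_num) hmK
      have hb := edges_bound_one i0 I j (4^(K-j)) i hi1 hi0 (by omega)
        (le_trans hc h2K) (le_trans hc h2m)
      have hfm : f m ≤ f j + f (K-j) := by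
        rcases min_choice j (K-j) with h | h
        · rw [hm, h]; have := hf0 (K-j); linarith
        · rw [hm, h]; have := hf0 j; linarith
      have hpow : (((4^(K-j) : ℕ):ℝ)) * 4^j = 4^K := by
        push_cast
        rw [← pow_add]; congr 1; omega
      calc ((edges i0 I j (4^(K-j))).card : ℝ)
          ≤ 162 * ((4^(K-j) : ℕ):ℝ) * 4^j * Real.exp (-(682/625) * PS (lev i)) := hb
        _ = 162 * 4^K * Real.exp (-(682/625) * PS (lev i)) := by rw [← hpow]; ring
        _ ≤ 162 * 4^K * (4 * f m) := mul_le_mul_of_nonneg_left he (by positivity)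
        _ ≤ 162 * 4^K * (4 * (f j + f (K-j))) := by
            apply mul_le_mul_of_nonneg_left _ (by positivity)
            linarith
        _ = _ := by ring
    refine le_trans (Finset.sum_le_sum hterm) ?_
    rw [← Finset.mul_sum, Finset.sum_add_distrib]
    have hr : ∑ j ∈ Ico m0 (K+1-m0), f (K-j) = ∑ j ∈ Ico m0 (K+1-m0), f j := by
      have := Finset.sum_Ico_reflect f m0 (m := K+1-m0) (n := K) (by omega)
      rw [this]
      congr 2
      omega
    rw [hr]
    have ht : ∑ j ∈ Ico m0 (K+1-m0), f j ≤ 1/(4*162*4*1000) := by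
      have := htail (K-m0)
      rwa [show K - m0 + 1 = K+1-m0 by omega] at this
    have h4 : (0:ℝ) < 4^K := by positivity
    nlinarith
  have hsecond : ∑ j ∈ Ico (K+1-m0) (K+1), ((edges i0 I j (4^(K-j))).card : ℝ) ≤ 4^K/2000 := by
    have hi21 : 1 ≤ i2 := le_trans (le_max_right _ _) (le_max_left _ _)
    have hi20 : i0 ≤ i2 := le_trans (le_max_left _ _) (le_max_left _ _)
    have hi2n : n2 ≤ i2 := le_max_right _ _
    have hterm : ∀ j ∈ Ico (K+1-m0) (K+1), ((edges i0 I j (4^(K-j))).card : ℝ)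
        ≤ 4^K / (2000*(m0+1)) := by
      intro j hj
      rw [Finset.mem_Ico] at hj
      have hcond : 3 * (lev i2:ℝ)^(12*i2) * Real.exp (6*i2) ≤ 2^j := by
        have h1 : (K1:ℝ) ≤ 2^j := by
          have h2 : K1 ≤ j := by omega
          have h3 : j < 2^j := Nat.lt_two_pow_self
          exact_mod_cast (by omega : K1 ≤ 2^j)
        linarith
      have hb := edges_bound_two i0 I j (4^(K-j)) i2 hi21 hi20 (le_max_right _ _) hcond
      have hpow : (((4^(K-j) : ℕ):ℝ)) * 4^j = 4^K := by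
        push_cast
        rw [← pow_add]; congr 1; omega
      have he : Real.exp (-(192/625) * PS (lev i2)) ≤ 1/(54*2000*(m0+1)) := by
        have h1 : Real.exp (-(192/625) * PS (lev i2)) ≤ Real.exp (-(192/625)) ^ n2 := by
          rw [← Real.exp_nat_mul]
          apply Real.exp_le_exp.mpr
          have h2 := (lev_spec i2 hi21).2.1
          have h3 : (n2:ℝ) ≤ i2 := by exact_mod_cast hi2n
          nlinarith
        exact le_trans h1 hn2.le
      calc ((edges i0 I j (4^(K-j))).card : ℝ)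
          ≤ 54 * ((4^(K-j) : ℕ):ℝ) * 4^j * Real.exp (-(192/625) * PS (lev i2)) := hb
        _ = 54 * 4^K * Real.exp (-(192/625) * PS (lev i2)) := by rw [← hpow]; ring
        _ ≤ 54 * 4^K * (1/(54*2000*(m0+1))) := mul_le_mul_of_nonneg_left he (by positivity)
        _ = 4^K / (2000*(m0+1)) := by field_simp
    refine le_trans (Finset.sum_le_sum hterm) ?_
    rw [Finset.sum_const, nsmul_eq_mul, Nat.card_Ico]
    have h1 : ((K + 1 - (K + 1 - m0) : ℕ):ℝ) ≤ m0 + 1 := by
      exact_mod_cast (by omega : K + 1 - (K + 1 - m0) ≤ m0 + 1)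
    have h4 : (0:ℝ) < 4^K := by positivity
    have hm00 : (0:ℝ) < (m0:ℝ) + 1 := by positivity
    calc ((K + 1 - (K + 1 - m0) : ℕ):ℝ) * (4^K / (2000*(m0+1)))
        ≤ (m0 + 1) * (4^K / (2000*(m0+1))) := mul_le_mul_of_nonneg_right h1 (by positivity)
      _ = 4^K/2000 := by field_simp
  linarith

end Pool.Agent.UnitFrac
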