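import Mathlib
import Pool.Agent.UnitFrac.Scales

set_option autoImplicit false

/-!
The construction of large sets without a solution of `1/a = 1/b_1 + ... + 1/b_k`.
-/

namespace Pool.Agent.UnitFrac

open Finset

/-- no element has its reciprocal equal to the sum of the reciprocals of other elements -/
def Adm (A : Finset ℕ) : Prop :=
  ∀ a ∈ A, ∀ S : Finset ℕ, S ⊆ A → a ∉ S → ∑ b ∈ S, (1 : ℚ) / (b : ℚ) ≠ (1 : ℚ) / (a : ℚ)

/-- structure of the solutions with two terms -/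
lemma two_term (a b c : ℕ) (hb : 0 < b) (hbc : b < c) (h : a * (b + c) = b * c) :
    ∃ g x y : ℕ, 0 < g ∧ 0 < x ∧ x < y ∧ a = g * x * y ∧ b = g * x * (x+y) ∧ c = g * y * (x+y) := by
  obtain ⟨d, x, y, hd, hcop, hbx, hcy⟩ : ∃ d x y : ℕ, 0 < d ∧ Nat.Coprime x y ∧ b = x * d ∧ c = y * d := by
    obtain ⟨x, y, h1, h2, h3⟩ := Nat.exists_coprime b c
    exact ⟨Nat.gcd b c, x, y, Nat.gcd_pos_of_pos_left _ hb, h1, h2, h3⟩
  subst hbx hcy
  have hx : 0 < x := Nat.pos_of_ne_zero (by rintro rfl; simp at hb)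
  have hxy : x < y := lt_of_mul_lt_mul_right hbc (Nat.zero_le d)
  have h2 : a * (x + y) = d * (x * y) := by
    have : d * (a * (x+y)) = d * (d * (x*y)) := by
      calc d * (a * (x+y)) = a * (x*d + y*d) := by ring
        _ = x * d * (y * d) := h
        _ = d * (d * (x*y)) := by ring
    exact Nat.eq_of_mul_eq_mul_left hd this
  have hcop2 : Nat.Coprime (x+y) (x*y) := by
    apply Nat.Coprime.mul_right
    · exact Nat.coprime_self_add_left.mpr hcop.symm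
    · exact Nat.coprime_add_self_left.mpr hcop
  have hdvd : (x+y) ∣ d := by
    apply hcop2.dvd_of_dvd_mul_right
    exact ⟨a, by rw [← h2]; ring⟩
  obtain ⟨g, hg⟩ := hdvd
  subst hg
  have hs : 0 < x + y := by omega
  refine ⟨g, x, y, ?_, hx, hxy, ?_, ?_, ?_⟩
  · exact Nat.pos_of_ne_zero (by rintro rfl; simp at hd)
  · have : (x+y) * a = (x+y) * (g*x*y) := by
      calc (x+y) * a = a * (x+y) := by ring
        _ = (x+y) * g * (x*y) := h2
        _ = _ := by ring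
    exact Nat.eq_of_mul_eq_mul_left hs this
  · ring
  · ring

open Classical in
lemma mem_edges_union (i0 I m0 K g x y : ℕ) (hg : 0 < g) (hx : 2^m0 ≤ x) (hxy : x < y)
    (hyx : y < 2*x) (hle : g * x * y ≤ 4^K) (h1 : Typ i0 I (g*x*y)) (h2 : Typ i0 I (g*x*(x+y)))
    (h3 : Typ i0 I (g*y*(x+y))) :
    (g, x, y) ∈ (Ico m0 (K+1)).biUnion (fun j => edges i0 I j (4^(K-j))) := by
  have hxpos : 0 < x := lt_of_lt_of_le (by positivity) hx
  set j := Nat.log 2 x with hj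
  have hj1 : 2^j ≤ x := Nat.pow_log_le_self 2 (by omega)
  have hj2 : x < 2^(j+1) := Nat.lt_pow_succ_log_self (by norm_num) x
  have hjm : m0 ≤ j := by
    rw [hj]
    exact Nat.le_log_of_pow_le (by norm_num) hx
  have h4 : 4^j ≤ x * y := by
    have : (4:ℕ)^j = 2^j * 2^j := by
      rw [← pow_add, ← two_mul, pow_mul]; norm_num
    rw [this]
    exact Nat.mul_le_mul hj1 (by omega)
  have h5 : g * 4^j ≤ 4^K := by
    calc g * 4^j ≤ g * (x*y) := Nat.mul_le_mul_left g h4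
      _ = g*x*y := by ring
      _ ≤ 4^K := hle
  have hjK : j ≤ K := by
    by_contra hcon
    have : 4^K < 4^j := Nat.pow_lt_pow_right (by norm_num) (by omega)
    have h6 : 4^j ≤ g * 4^j := Nat.le_mul_of_pos_left _ hg
    omega
  have hg2 : g ≤ 4^(K-j) := by
    have h6 : 4^K = 4^(K-j) * 4^j := by rw [← pow_add]; congr 1; omega
    rw [h6] at h5
    exact Nat.le_of_mul_le_mul_right h5 (by positivity)
  rw [Finset.mem_biUnion]
  refine ⟨j, Finset.mem_Ico.mpr ⟨hjm, by omega⟩, ?_⟩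
  unfold edges
  rw [Finset.mem_filter, Finset.mem_product, Finset.mem_product, Finset.mem_Icc,
    Finset.mem_Ico, Finset.mem_Ico]
  rw [pow_succ] at hj2
  have k1 : x < 2^j + 3*2^j := by omega
  have k2 : 2^j ≤ y := by omega
  have k3 : y < 2^j + 3*2^j := by omega
  exact ⟨⟨⟨hg, hg2⟩, ⟨hj1, k1⟩, ⟨k2, k3⟩⟩, h1, h2, h3⟩

/-- number of `N` for which `a` lies in the lower window -/
lemma low_count (X M a : ℕ) (hX : 2 ≤ X) :
    ((Ioc M (2*M)).filter (fun N => 2*a ≤ N ∧ (4*X-1)*N < 8*X*a)).card ≤ 2*M/X + 1 := by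
  have hsub : (Ioc M (2*M)).filter (fun N => 2*a ≤ N ∧ (4*X-1)*N < 8*X*a)
      ⊆ Icc (2*a) (2*a + 2*M/X) := by
    intro N hN
    rw [Finset.mem_filter, Finset.mem_Ioc] at hN
    obtain ⟨⟨_, h0⟩, h1, h2⟩ := hN
    have haM : a ≤ M := by omega
    rw [Finset.mem_Icc]
    refine ⟨h1, ?_⟩
    obtain ⟨d, hd⟩ := Nat.exists_eq_add_of_le h1
    subst hd
    have h3 : d ≤ 2*M/X := by
      rw [Nat.le_div_iff_mul_le (by omega)]
      obtain ⟨Y, hY⟩ : ∃ Y, X = Y + 1 := ⟨X-1, by omega⟩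
      subst hY
      have e1 : 4*(Y+1)-1 = 4*Y+3 := by omega
      rw [e1] at h2
      nlinarith
    omega
  calc _ ≤ (Icc (2*a) (2*a + 2*M/X)).card := Finset.card_le_card hsub
    _ = 2*M/X + 1 := by rw [Nat.card_Icc]; generalize 2*M/X = q; omega

/-- number of `N` for which `b` lies in the upper window -/
lemma high_count (X M b : ℕ) (hX : 2 ≤ X) :
    ((Ioc M (2*M)).filter (fun N => b ≤ N ∧ (2*X-1)*N ≤ 2*X*b)).card ≤ 2*M/X + 1 := by
  have hsub : (Ioc M (2*M)).filter (fun N => b ≤ N ∧ (2*X-1)*N ≤ 2*X*b)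
      ⊆ Icc b (b + 2*M/X) := by
    intro N hN
    rw [Finset.mem_filter, Finset.mem_Ioc] at hN
    obtain ⟨⟨_, h0⟩, h1, h2⟩ := hN
    have hbM : b ≤ 2*M := by omega
    rw [Finset.mem_Icc]
    refine ⟨h1, ?_⟩
    obtain ⟨d, hd⟩ := Nat.exists_eq_add_of_le h1
    subst hd
    have h3 : d ≤ 2*M/X := by
      rw [Nat.le_div_iff_mul_le (by omega)]
      obtain ⟨Y, hY⟩ : ∃ Y, X = Y + 1 := ⟨X-1, by omega⟩
      subst hY
      have e1 : 2*(Y+1)-1 = 2*Y+1 := by omega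
      rw [e1] at h2
      nlinarith
    omega
  calc _ ≤ (Icc b (b + 2*M/X)).card := Finset.card_le_card hsub
    _ = 2*M/X + 1 := by rw [Nat.card_Icc]; generalize 2*M/X = q; omega

lemma pair_structure (X N a b c : ℕ) (hX : 2 ≤ X) (ha : 0 < a)
    (haN : (4*X-1)*N < 8*X*a) (hb : 0 < b) (hcN : c ≤ N) (hbc : b < c)
    (h : a * (b + c) = b * c) :
    ∃ g x y : ℕ, 0 < g ∧ X ≤ x ∧ x < y ∧ y < 2*x ∧ a = g*x*y ∧ b = g*x*(x+y) ∧ c = g*y*(x+y) ∧
      (2*X-1)*N ≤ 2*X*b ∧ (2*X-1)*N ≤ 2*X*c := by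
  obtain ⟨g, x, y, hg, hx, hxy, e1, e2, e3⟩ := two_term a b c hb hbc h
  obtain ⟨Y, hY⟩ : ∃ Y, X = Y + 1 := ⟨X-1, by omega⟩
  subst hY
  have s1 : 4*(Y+1)-1 = 4*Y+3 := by omega
  have s2 : 2*(Y+1)-1 = 2*Y+1 := by omega
  rw [s1] at haN
  rw [s2]
  have hab : a < b := by
    by_contra hcon
    push Not at hcon
    have : b * c ≤ a * c := Nat.mul_le_mul_right c hcon
    have h2 : 0 < a * b := by positivity
    nlinarith
  -- key inequality
  have hkey : a * (N + b) ≤ N * b := by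
    have h1 : c * (b - a) = a * b := by
      zify [hab.le]
      have h' : (a:ℤ) * (b + c) = b * c := by exact_mod_cast h
      linarith
    have h2 : c * (b - a) ≤ N * (b - a) := Nat.mul_le_mul_right _ hcN
    zify [hab.le] at h1 h2 ⊢
    linarith
  have hbN : (2*Y+1)*N ≤ 2*(Y+1)*b := by
    by_contra hcon
    push Not at hcon
    have h1 : (4*Y+3)*b < (2*Y+1)*(N+b) := by nlinarith
    have hNpos : 0 < N := by omega
    have h2 : (4*Y+3)*a*(N+b) < (2*Y+1)*N*(N+b) := by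
      calc (4*Y+3)*a*(N+b) = (4*Y+3)*(a*(N+b)) := by ring
        _ ≤ (4*Y+3)*(N*b) := Nat.mul_le_mul_left _ hkey
        _ = N*((4*Y+3)*b) := by ring
        _ < N*((2*Y+1)*(N+b)) := Nat.mul_lt_mul_of_pos_left h1 hNpos
        _ = _ := by ring
    have h3 : (4*Y+3)*a < (2*Y+1)*N := lt_of_mul_lt_mul_right h2 (Nat.zero_le _)
    have h4 : (4*Y+3)*((4*Y+3)*N) ≤ (4*Y+3)*(8*(Y+1)*a) := Nat.mul_le_mul_left _ haN.le
    have h5 : 8*(Y+1)*((4*Y+3)*a) < 8*(Y+1)*((2*Y+1)*N) :=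
      Nat.mul_lt_mul_of_pos_left h3 (by omega)
    nlinarith
  have hcN2 : (2*Y+1)*N ≤ 2*(Y+1)*c := by
    refine le_trans hbN (Nat.mul_le_mul_left _ hbc.le)
  have hyx : (2*Y+1)*y ≤ 2*(Y+1)*x := by
    have h1 : (2*Y+1)*c ≤ 2*(Y+1)*b := le_trans (Nat.mul_le_mul_left _ hcN) hbN
    rw [e2, e3] at h1
    have h2 : ((2*Y+1)*y)*(g*(x+y)) ≤ (2*(Y+1)*x)*(g*(x+y)) := by
      calc ((2*Y+1)*y)*(g*(x+y)) = (2*Y+1)*(g*y*(x+y)) := by ring
        _ ≤ 2*(Y+1)*(g*x*(x+y)) := h1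
        _ = _ := by ring
    have h3 : 0 < g*(x+y) := by positivity
    exact Nat.le_of_mul_le_mul_right h2 h3
  refine ⟨g, x, y, hg, ?_, hxy, ?_, e1, e2, e3, hbN, hcN2⟩
  · have h1 : (2*Y+1)*(x+1) ≤ (2*Y+1)*y := Nat.mul_le_mul_left _ hxy
    nlinarith
  · by_contra hcon
    push Not at hcon
    have h1 : (2*Y+1)*(2*x) ≤ (2*Y+1)*y := Nat.mul_le_mul_left _ hcon
    have h2 : 1 ≤ Y := by omega
    nlinarith

lemma solution_structure (X N a : ℕ) (S : Finset ℕ) (hX : 2 ≤ X) (ha : 0 < a)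
    (haN : (4*X-1)*N < 8*X*a) (hS : ∀ b ∈ S, 0 < b ∧ b ≤ N) (haS : a ∉ S)
    (hsum : ∑ b ∈ S, (1:ℚ)/(b:ℚ) = (1:ℚ)/(a:ℚ)) :
    2*a ≤ N ∧ ∃ g x y : ℕ, 0 < g ∧ X ≤ x ∧ x < y ∧ y < 2*x ∧ a = g*x*y ∧
      g*x*(x+y) ∈ S ∧ g*y*(x+y) ∈ S ∧
      (2*X-1)*N ≤ 2*X*(g*x*(x+y)) ∧ (2*X-1)*N ≤ 2*X*(g*y*(x+y)) := by
  have haq : (0:ℚ) < a := by exact_mod_cast ha
  have hne : S.Nonempty := by
    by_contra hcon
    rw [Finset.not_nonempty_iff_eq_empty] at hcon
    subst hcon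
    simp only [Finset.sum_empty] at hsum
    have : (0:ℚ) < 1/(a:ℚ) := by positivity
    linarith
  have hN : 0 < N := by
    obtain ⟨b, hb⟩ := hne
    have := hS b hb
    omega
  have hNq : (0:ℚ) < N := by exact_mod_cast hN
  have hcard : S.card * a ≤ N := by
    have h1 : ∑ b ∈ S, (1:ℚ)/(N:ℚ) ≤ ∑ b ∈ S, (1:ℚ)/(b:ℚ) := by
      apply Finset.sum_le_sum
      intro b hb
      obtain ⟨hb0, hbN⟩ := hS b hb
      apply one_div_le_one_div_of_le
      · exact_mod_cast hb0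
      · exact_mod_cast hbN
    rw [Finset.sum_const, nsmul_eq_mul, hsum, mul_one_div, div_le_div_iff₀ hNq haq] at h1
    have : ((S.card * a : ℕ):ℚ) ≤ (N:ℚ) := by push_cast; linarith
    exact_mod_cast this
  have hc2 : S.card ≤ 2 := by
    by_contra hcon
    push Not at hcon
    have h1 : 3 * a ≤ N := le_trans (Nat.mul_le_mul_right a hcon) hcard
    obtain ⟨Y, hY⟩ : ∃ Y, X = Y + 1 := ⟨X-1, by omega⟩
    subst hY
    have s1 : 4*(Y+1)-1 = 4*Y+3 := by omega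
    rw [s1] at haN
    have h2 : (4*Y+3)*(3*a) ≤ (4*Y+3)*N := Nat.mul_le_mul_left _ h1
    nlinarith
  have hc1 : S.card ≠ 1 := by
    intro h1
    obtain ⟨b, hb⟩ := Finset.card_eq_one.mp h1
    subst hb
    rw [Finset.sum_singleton] at hsum
    have hb0 := (hS b (Finset.mem_singleton_self b)).1
    have hbq : (0:ℚ) < b := by exact_mod_cast hb0
    rw [div_eq_div_iff hbq.ne' haq.ne', one_mul, one_mul] at hsum
    apply haS
    rw [Finset.mem_singleton]
    exact_mod_cast hsum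
  have hc0 : S.card ≠ 0 := Finset.card_ne_zero.mpr hne
  have hc : S.card = 2 := by omega
  refine ⟨by rw [hc] at hcard; exact hcard, ?_⟩
  obtain ⟨b, c, hbc, hSe⟩ := Finset.card_eq_two.mp hc
  subst hSe
  rw [Finset.sum_pair hbc] at hsum
  have hb := hS b (by simp)
  have hc' := hS c (by simp)
  have hbq : (0:ℚ) < b := by exact_mod_cast hb.1
  have hcq : (0:ℚ) < c := by exact_mod_cast hc'.1
  have heq : a * (b + c) = b * c := by
    have h1 : (a:ℚ) * (b + c) = b * c := by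
      field_simp at hsum
      linarith
    exact_mod_cast h1
  rcases Nat.lt_or_gt_of_ne hbc with hlt | hlt
  · obtain ⟨g, x, y, h1, h2, h3, h4, h5, h6, h7, h8, h9⟩ :=
      pair_structure X N a b c hX ha haN hb.1 hc'.2 hlt heq
    refine ⟨g, x, y, h1, h2, h3, h4, h5, ?_, ?_, ?_, ?_⟩
    · rw [← h6]; simp
    · rw [← h7]; simp
    · rw [← h6]; exact h8
    · rw [← h7]; exact h9
  · obtain ⟨g, x, y, h1, h2, h3, h4, h5, h6, h7, h8, h9⟩ :=
      pair_structure X N a c b hX ha haN hc'.1 hb.2 hlt (by rw [add_comm, heq, mul_comm])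
    refine ⟨g, x, y, h1, h2, h3, h4, h5, ?_, ?_, ?_, ?_⟩
    · rw [← h6]; simp
    · rw [← h7]; simp
    · rw [← h6]; exact h8
    · rw [← h7]; exact h9

lemma sum_card_filter_le {α : Type*} (T : Finset α) (W : Finset ℕ) (P : ℕ → α → Prop)
    [∀ N a, Decidable (P N a)] (D : ℕ) (h : ∀ a ∈ T, (W.filter (fun N => P N a)).card ≤ D) :
    ∑ N ∈ W, (T.filter (fun a => P N a)).card ≤ T.card * D := by
  simp_rw [Finset.card_filter]
  rw [Finset.sum_comm]
  calc ∑ a ∈ T, ∑ N ∈ W, (if P N a then 1 else 0) ≤ ∑ _a ∈ T, D := by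
        apply Finset.sum_le_sum
        intro a ha
        rw [← Finset.card_filter]
        exact h a ha
    _ = T.card * D := by rw [Finset.sum_const, smul_eq_mul]

open Classical in
theorem main_construction : ∃ X : ℕ, 2 ≤ X ∧ ∀ N0 : ℕ, ∃ N, N0 ≤ N ∧ 0 < N ∧
    ∃ A : Finset ℕ, A ⊆ Icc 1 N ∧ Adm A ∧ (1/2 + 1/(16*(X:ℝ))) * N < A.card := by
  obtain ⟨i0, hi0, hnt⟩ := nontyp_count
  obtain ⟨m0, hm0, het⟩ := edges_total i0
  set X : ℕ := 2^m0 with hXdef
  have hX2 : 2 ≤ X := by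
    rw [hXdef]
    calc 2 = 2^1 := by norm_num
      _ ≤ 2^m0 := Nat.pow_le_pow_right (by norm_num) hm0
  refine ⟨X, hX2, fun N0 => ?_⟩
  obtain ⟨K, hK, I, hE⟩ := het (N0 + m0)
  set M : ℕ := 4^K with hM
  have hMK : K < M := by rw [hM]; exact Nat.lt_pow_self (by norm_num)
  have hMX : X ≤ M := by
    rw [hXdef, hM]
    calc 2^m0 ≤ 2^K := Nat.pow_le_pow_right (by norm_num) (by omega)
      _ ≤ 4^K := Nat.pow_le_pow_left (by norm_num) K
  have hMr : ((M:ℕ):ℝ) = 4^K := by rw [hM]; push_cast; rfl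
  set E := (Ico m0 (K+1)).biUnion (fun j => edges i0 I j (4^(K-j))) with hEdef
  have hEcard : (E.card:ℝ) ≤ M/1000 := by
    rw [hMr]
    refine le_trans ?_ hE
    exact_mod_cast Finset.card_biUnion_le
  set T1 := (Icc 1 M).filter (fun n => ¬ Typ i0 I n) with hT1
  set T2 := (Icc 1 (2*M)).filter (fun n => ¬ Typ i0 I n) with hT2
  have hT1c : (T1.card:ℝ) ≤ M/1000 := hnt I M
  have hT2c : (T2.card:ℝ) ≤ 2*M/1000 := by
    have := hnt I (2*M)
    push_cast at this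
    exact this
  set W := Ioc M (2*M) with hW
  set D : ℕ := 2*M/X + 1 with hD
  set b1 : ℕ → ℕ := fun N => (T1.filter (fun a => 2*a ≤ N ∧ (4*X-1)*N < 8*X*a)).card with hb1
  set b2 : ℕ → ℕ := fun N => (T2.filter (fun b => b ≤ N ∧ (2*X-1)*N ≤ 2*X*b)).card with hb2
  set b3 : ℕ → ℕ := fun N => (E.filter (fun t => 2*(t.1*t.2.1*t.2.2) ≤ N ∧
    (4*X-1)*N < 8*X*(t.1*t.2.1*t.2.2))).card with hb3
  have s1 : ∑ N ∈ W, b1 N ≤ T1.card * D :=
    sum_card_filter_le T1 W (fun N a => 2*a ≤ N ∧ (4*X-1)*N < 8*X*a) D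
      (fun a _ => low_count X M a hX2)
  have s2 : ∑ N ∈ W, b2 N ≤ T2.card * D :=
    sum_card_filter_le T2 W (fun N b => b ≤ N ∧ (2*X-1)*N ≤ 2*X*b) D
      (fun b _ => high_count X M b hX2)
  have s3 : ∑ N ∈ W, b3 N ≤ E.card * D :=
    sum_card_filter_le E W (fun N t => 2*(t.1*t.2.1*t.2.2) ≤ N ∧
      (4*X-1)*N < 8*X*(t.1*t.2.1*t.2.2)) D (fun t _ => low_count X M _ hX2)
  have hXr : (2:ℝ) ≤ X := by exact_mod_cast hX2
  have hMr0 : (1:ℝ) ≤ M := by exact_mod_cast (by omega : 1 ≤ M)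
  have hMXr : (X:ℝ) ≤ M := by exact_mod_cast hMX
  -- a good value of `N`
  obtain ⟨N, hNW, hNbad⟩ : ∃ N ∈ W, ((b1 N + b2 N + b3 N : ℕ):ℝ) < N/(16*X) := by
    by_contra hcon
    push Not at hcon
    have h1 : ∑ N ∈ W, (M:ℝ)/(16*X) ≤ ∑ N ∈ W, ((b1 N + b2 N + b3 N : ℕ):ℝ) := by
      apply Finset.sum_le_sum
      intro N hN
      refine le_trans ?_ (hcon N hN)
      have : M ≤ N := by rw [hW, Finset.mem_Ioc] at hN; omega
      have hMN : (M:ℝ) ≤ N := by exact_mod_cast this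
      apply div_le_div_of_nonneg_right hMN (by positivity)
    have h2 : ∑ N ∈ W, ((b1 N + b2 N + b3 N : ℕ):ℝ) ≤ (T1.card + T2.card + E.card) * D := by
      have h3 : ∑ N ∈ W, (b1 N + b2 N + b3 N) ≤ (T1.card + T2.card + E.card) * D := by
        rw [Finset.sum_add_distrib, Finset.sum_add_distrib]
        nlinarith
      exact_mod_cast h3
    rw [Finset.sum_const, nsmul_eq_mul] at h1
    have hWc : W.card = M := by rw [hW, Nat.card_Ioc]; omega
    rw [hWc] at h1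
    have hDr : (D:ℝ) ≤ 3*M/X := by
      rw [hD]
      push_cast
      have h4 : ((2*M/X : ℕ):ℝ) ≤ ((2*M : ℕ):ℝ)/X := Nat.cast_div_le
      have h5 : (1:ℝ) ≤ M/X := by rw [le_div_iff₀ (by linarith)]; linarith
      have h6 : 3*(M:ℝ)/X = 2*M/X + M/X := by ring
      rw [h6]
      push_cast at h4
      linarith
    have h7 : ((T1.card:ℝ) + T2.card + E.card) * D ≤ (4*M/1000) * (3*M/X) := by
      apply mul_le_mul _ hDr (by positivity) (by positivity)
      linarith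
    have h8 : (M:ℝ) * (M/(16*X)) ≤ (4*M/1000) * (3*M/X) := le_trans h1 (le_trans h2 h7)
    have h9 : (M:ℝ) * (M/(16*X)) = (M*M/X) * (1/16) := by
      field_simp
    have h10 : (4*(M:ℝ)/1000) * (3*M/X) = (M*M/X) * (12/1000) := by
      field_simp
      ring
    rw [h9, h10] at h8
    have h11 : 0 < (M:ℝ)*M/X := by positivity
    nlinarith
  rw [hW, Finset.mem_Ioc] at hNW
  have hN0 : 0 < N := by omega
  set A := (Icc 1 N).filter (fun n => (4*X-1)*N < 8*X*n ∧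
    (2*n ≤ N → Typ i0 I n ∧ ∀ t ∈ E, t.1*t.2.1*t.2.2 ≠ n) ∧
    ((2*X-1)*N ≤ 2*X*n → Typ i0 I n)) with hA
  refine ⟨N, by omega, hN0, A, Finset.filter_subset _ _, ?_, ?_⟩
  · -- admissible
    intro a ha S hS haS hsum
    have hA' : ∀ n ∈ A, 1 ≤ n ∧ n ≤ N ∧ (4*X-1)*N < 8*X*n ∧
        (2*n ≤ N → Typ i0 I n ∧ ∀ t ∈ E, t.1*t.2.1*t.2.2 ≠ n) ∧
        ((2*X-1)*N ≤ 2*X*n → Typ i0 I n) := by
      intro n hn
      rw [hA, Finset.mem_filter, Finset.mem_Icc] at hn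
      exact ⟨hn.1.1, hn.1.2, hn.2.1, hn.2.2.1, hn.2.2.2⟩
    obtain ⟨ha1, ha2, ha3, ha4, _⟩ := hA' a ha
    obtain ⟨h2a, g, x, y, hg, hx, hxy, hyx, hae, hbS, hcS, hb5, hc5⟩ :=
      solution_structure X N a S hX2 ha1 ha3
        (fun b hb => ⟨(hA' b (hS hb)).1, (hA' b (hS hb)).2.1⟩) haS hsum
    obtain ⟨hta, hnot⟩ := ha4 h2a
    have htb := (hA' _ (hS hbS)).2.2.2.2 hb5
    have htc := (hA' _ (hS hcS)).2.2.2.2 hc5
    have hmem := mem_edges_union i0 I m0 K g x y hg hx hxy hyx (by rw [← hae]; omega)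
      (by rw [← hae]; exact hta) htb htc
    exact hnot _ hmem hae.symm
  · -- size
    set B0 := Ioc ((4*X-1)*N/(8*X)) N with hB0
    have hsub : B0 ⊆ A ∪ ((T1.filter (fun a => 2*a ≤ N ∧ (4*X-1)*N < 8*X*a)) ∪
        ((T2.filter (fun b => b ≤ N ∧ (2*X-1)*N ≤ 2*X*b)) ∪
        ((E.filter (fun t => 2*(t.1*t.2.1*t.2.2) ≤ N ∧
          (4*X-1)*N < 8*X*(t.1*t.2.1*t.2.2))).image (fun t => t.1*t.2.1*t.2.2)))) := by
      intro n hn
      rw [hB0, Finset.mem_Ioc] at hn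
      obtain ⟨hn1, hn2⟩ := hn
      have hn3 : (4*X-1)*N < 8*X*n := by
        rw [Nat.div_lt_iff_lt_mul (by omega)] at hn1
        linarith
      have hn0 : 1 ≤ n := Nat.lt_of_le_of_lt (Nat.zero_le _) hn1
      by_cases hnA : n ∈ A
      · exact Finset.mem_union_left _ hnA
      · apply Finset.mem_union_right
        rw [hA, Finset.mem_filter, Finset.mem_Icc] at hnA
        by_cases hc1 : 2*n ≤ N
        · by_cases hc2 : Typ i0 I n
          · by_cases hc3 : ∀ t ∈ E, t.1*t.2.1*t.2.2 ≠ n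
            · have hc4 : ¬ ((2*X-1)*N ≤ 2*X*n → Typ i0 I n) := fun hh =>
                hnA ⟨⟨hn0, hn2⟩, hn3, fun _ => ⟨hc2, hc3⟩, hh⟩
              exact absurd (fun _ => hc2) hc4
            · push Not at hc3
              obtain ⟨t, ht, hte⟩ := hc3
              apply Finset.mem_union_right
              apply Finset.mem_union_right
              rw [Finset.mem_image]
              refine ⟨t, ?_, hte⟩
              rw [Finset.mem_filter, hte]
              exact ⟨ht, hc1, hn3⟩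
          · apply Finset.mem_union_left
            rw [Finset.mem_filter, hT1, Finset.mem_filter, Finset.mem_Icc]
            exact ⟨⟨⟨hn0, by omega⟩, hc2⟩, hc1, hn3⟩
        · have hc4 : ¬ ((2*X-1)*N ≤ 2*X*n → Typ i0 I n) := fun hh =>
            hnA ⟨⟨hn0, hn2⟩, hn3, fun h => absurd h hc1, hh⟩
          push Not at hc4
          apply Finset.mem_union_right
          apply Finset.mem_union_left
          rw [Finset.mem_filter, hT2, Finset.mem_filter, Finset.mem_Icc]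
          exact ⟨⟨⟨hn0, by omega⟩, hc4.2⟩, hn2, hc4.1⟩
    have hcard : B0.card ≤ A.card + (b1 N + b2 N + b3 N) := by
      refine le_trans (Finset.card_le_card hsub) ?_
      refine le_trans (Finset.card_union_le _ _) ?_
      apply Nat.add_le_add_left
      refine le_trans (Finset.card_union_le _ _) ?_
      rw [add_assoc]
      apply Nat.add_le_add_left
      refine le_trans (Finset.card_union_le _ _) ?_
      apply Nat.add_le_add_left
      exact Finset.card_image_le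
    have hB0c : (N:ℝ) * (1/2 + 1/(8*X)) ≤ B0.card := by
      rw [hB0, Nat.card_Ioc]
      have hle : (4*X-1)*N/(8*X) ≤ N := by
        apply Nat.div_le_of_le_mul
        apply Nat.mul_le_mul_right
        omega
      rw [Nat.cast_sub hle]
      have h1 : (((4*X-1)*N/(8*X) : ℕ):ℝ) ≤ (((4*X-1)*N : ℕ):ℝ)/((8*X : ℕ):ℝ) := Nat.cast_div_le
      have h2 : (((4*X-1)*N : ℕ):ℝ) = (4*X-1)*N := by
        rw [Nat.cast_mul, Nat.cast_sub (by omega)]
        push_cast; ring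
      rw [h2] at h1
      push_cast at h1
      have h3 : (4*(X:ℝ)-1)*N/(8*X) = N - N * (1/2 + 1/(8*X)) := by
        field_simp
        ring
      rw [h3] at h1
      linarith
    have hcardr : (B0.card:ℝ) ≤ A.card + ((b1 N + b2 N + b3 N : ℕ):ℝ) := by exact_mod_cast hcard
    have h4 : (N:ℝ)/(16*X) = N * (1/(8*X)) - N * (1/(16*X)) := by
      field_simp
      ring
    rw [h4] at hNbad
    have h5 : (1/2 + 1/(16*(X:ℝ))) * N = N * (1/2 + 1/(8*X)) - (N * (1/(8*X)) - N * (1/(16*X))) := by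
      ring
    rw [h5]
    linarith

end Pool.Agent.UnitFrac
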